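import Mathlib

/-!
# Linear extensions of banded orders: counting by remaining sets, and the contraction lemma
-/

set_option autoImplicit false

open Finset
open scoped Classical

namespace Pool.Agent.R38.FA

/-- a partial order on `{0, …, N - 1}` contained in the usual order, in which `i < j` whenever
`i + m ≤ j` -/
structure BO (m N : ℕ) (r : ℕ → ℕ → Prop) : Prop where
  refl : ∀ i < N, r i i
  trans : ∀ i j k, i < N → j < N → k < N → r i j → r j k → r i k
  le : ∀ i j, i < N → j < N → r i j → i ≤ j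
  band : ∀ i j, j < N → i + m ≤ j → r i j

section

variable (r : ℕ → ℕ → Prop)

/-- the minimal elements of `A` -/
noncomputable def mins (A : Finset ℕ) : Finset ℕ := A.filter (fun p => ∀ q ∈ A, r q p → q = p)

/-- the number of linear extensions of a set with `k` elements -/
noncomputable def F : ℕ → Finset ℕ → ℕ
  | 0, _ => 1
  | k + 1, A => ∑ p ∈ mins r A, F k (A.erase p)

/-- the number of linear extensions of a set with `k` elements in which `y` does not come
before `x` -/
noncomputable def F1 (x y : ℕ) : ℕ → Finset ℕ → ℕ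
  | 0, _ => 1
  | k + 1, A => ∑ p ∈ (mins r A).filter (fun p => p = y → x ∉ A), F1 x y k (A.erase p)

/-- the number of ways to go from `A` to `B` in `s` steps -/
noncomputable def G : ℕ → Finset ℕ → Finset ℕ → ℕ
  | 0, A, B => if A = B then 1 else 0
  | s + 1, A, B => ∑ p ∈ mins r A, G s (A.erase p) B

/-- upper sets of `{0, …, N - 1}` -/
def Up (N : ℕ) (B : Finset ℕ) : Prop := B ⊆ range N ∧ ∀ p ∈ B, ∀ q < N, r p q → q ∈ B

/-- upper sets with `k` elements -/
noncomputable def UU (N k : ℕ) : Finset (Finset ℕ) :=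
  (range N).powerset.filter (fun B => Up r N B ∧ B.card = k)

variable {r}

lemma mem_mins {A : Finset ℕ} {p : ℕ} : p ∈ mins r A ↔ p ∈ A ∧ ∀ q ∈ A, r q p → q = p := by
  simp [mins]

lemma mem_UU {N k : ℕ} {B : Finset ℕ} : B ∈ UU r N k ↔ Up r N B ∧ B.card = k := by
  unfold UU
  rw [mem_filter, mem_powerset]
  exact ⟨fun h => h.2, fun h => ⟨h.1.1, h⟩⟩

lemma Up.erase {N : ℕ} {A : Finset ℕ} (hA : Up r N A) {p : ℕ} (hp : p ∈ mins r A) :
    Up r N (A.erase p) := by
  refine ⟨(erase_subset _ _).trans hA.1, fun q' hq' q hq h => ?_⟩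
  rw [mem_erase] at hq' ⊢
  refine ⟨?_, hA.2 q' hq'.2 q hq h⟩
  rintro rfl
  exact hq'.1 ((mem_mins.mp hp).2 q' hq'.2 h)

lemma card_erase_mins {A : Finset ℕ} {p : ℕ} (hp : p ∈ mins r A) :
    (A.erase p).card + 1 = A.card := by
  have h := (mem_mins.mp hp).1
  rw [card_erase_of_mem h]
  have := card_pos.mpr ⟨p, h⟩
  omega

lemma mins_nonempty {m N : ℕ} (hr : BO m N r) {A : Finset ℕ} (hA : A ⊆ range N)
    (hne : A.Nonempty) : (mins r A).Nonempty := by
  refine ⟨A.min' hne, mem_mins.mpr ⟨min'_mem _ _, fun q hq h => ?_⟩⟩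
  have h1 := hr.le q _ (mem_range.mp (hA hq)) (mem_range.mp (hA (min'_mem _ hne))) h
  exact le_antisymm h1 (min'_le _ _ hq)

lemma card_mins_le {m N : ℕ} (hm : 1 ≤ m) (hr : BO m N r) {A : Finset ℕ} (hA : A ⊆ range N) :
    (mins r A).card ≤ m := by
  rcases A.eq_empty_or_nonempty with rfl | hne
  · simp [mins]
  · have h : mins r A ⊆ Ico (A.min' hne) (A.min' hne + m) := by
      intro p hp
      rw [mem_mins] at hp
      rw [mem_Ico]
      refine ⟨min'_le _ _ hp.1, ?_⟩
      by_contra hcon
      push Not at hcon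
      have h1 := hp.2 _ (min'_mem _ hne) (hr.band _ _ (mem_range.mp (hA hp.1)) hcon)
      omega
    refine (card_le_card h).trans ?_
    simp

lemma F_pos {m N : ℕ} (hr : BO m N r) (k : ℕ) : ∀ A : Finset ℕ, A ⊆ range N → A.card = k →
    0 < F r k A := by
  induction k with
  | zero => intro A _ _; simp [F]
  | succ k ih =>
    intro A hA hk
    have hne : A.Nonempty := by
      rw [← card_pos]; omega
    obtain ⟨p, hp⟩ := mins_nonempty hr hA hne
    rw [F]
    refine sum_pos' (fun _ _ => Nat.zero_le _) ⟨p, hp, ih _ ((erase_subset _ _).trans hA) ?_⟩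
    have := card_erase_mins hp
    omega

lemma F1_le (x y k : ℕ) : ∀ A : Finset ℕ, F1 r x y k A ≤ F r k A := by
  induction k with
  | zero => intro A; simp [F1, F]
  | succ k ih =>
    intro A
    rw [F1, F]
    refine (sum_le_sum fun p _ => ih (A.erase p)).trans ?_
    exact sum_le_sum_of_subset (filter_subset _ _)

/-- the end of an upper set -/
lemma Up.mem {m N : ℕ} (hm : 1 ≤ m) (hr : BO m N r) {A : Finset ℕ} (hA : Up r N A) {t j : ℕ}
    (ht : A.card + t = N) (hj : j < N) (htj : t + m ≤ j + 1) : j ∈ A := by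
  by_contra hcon
  have h1 : insert j (range (j + 1 - m)) ⊆ range N \ A := by
    intro i hi
    rw [mem_insert] at hi
    rw [mem_sdiff, mem_range]
    rcases hi with rfl | hi
    · exact ⟨hj, hcon⟩
    · rw [mem_range] at hi
      refine ⟨by omega, fun hiA => hcon ?_⟩
      exact hA.2 i hiA j hj (hr.band i j hj (by omega))
  have h2 := card_le_card h1
  rw [card_insert_of_notMem (by rw [mem_range]; omega), card_range,
    card_sdiff_of_subset hA.1, card_range] at h2
  omega

/-- the beginning of an upper set -/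
lemma Up.le {m N : ℕ} (hm : 1 ≤ m) (hr : BO m N r) {A : Finset ℕ} (hA : Up r N A) {t i : ℕ}
    (ht : A.card + t = N) (hi : i ∈ A) : t + 1 ≤ i + m := by
  have hiN := mem_range.mp (hA.1 hi)
  by_contra hcon
  have h1 : insert i (Ico (i + m) N) ⊆ A := by
    intro j hj
    rw [mem_insert] at hj
    rcases hj with rfl | hj
    · exact hi
    · rw [mem_Ico] at hj
      exact hA.2 i hi j hj.2 (hr.band i j hj.2 hj.1)
  have h2 := card_le_card h1
  rw [card_insert_of_notMem (by rw [mem_Ico]; omega), Nat.card_Ico] at h2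
  omega

lemma Up.sub {m N : ℕ} (hm : 1 ≤ m) (hr : BO m N r) {A B : Finset ℕ} (hA : Up r N A)
    (hB : Up r N B) (hs : B.card + 2 * m ≤ A.card) : B ⊆ A := by
  intro i hi
  have h1 : A.card ≤ N := by
    have := card_le_card hA.1
    rwa [card_range] at this
  have h2 := hB.le hm hr (t := N - B.card) (by omega) hi
  exact hA.mem hm hr (t := N - A.card) (by omega) (mem_range.mp (hB.1 hi)) (by omega)

/-- `y` is not minimal in a large set -/
lemma not_mins {m N : ℕ} (hm : 1 ≤ m) (hr : BO m N r) {A : Finset ℕ} (hA : A ⊆ range N) {t y : ℕ}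
    (ht : A.card + t = N) (hne : A.Nonempty) (hy : y < N) (hty : t + m ≤ y) : y ∉ mins r A := by
  intro hcon
  rw [mem_mins] at hcon
  have h1 : A ⊆ Ico (A.min' hne) N := by
    intro p hp
    rw [mem_Ico]
    exact ⟨min'_le _ _ hp, mem_range.mp (hA hp)⟩
  have h2 := card_le_card h1
  rw [Nat.card_Ico] at h2
  have h3 : A.min' hne ≤ t := by
    have := mem_range.mp (hA (min'_mem _ hne))
    omega
  have h4 := hcon.2 _ (min'_mem _ hne) (hr.band _ _ hy (by omega))
  omega

lemma G_le {m N : ℕ} (hm : 1 ≤ m) (hr : BO m N r) (s : ℕ) : ∀ A B : Finset ℕ, A ⊆ range N →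
    G r s A B ≤ m ^ s := by
  induction s with
  | zero =>
    intro A B _
    rw [G]
    split_ifs <;> simp
  | succ s ih =>
    intro A B hA
    rw [G]
    calc ∑ p ∈ mins r A, G r s (A.erase p) B ≤ ∑ p ∈ mins r A, m ^ s :=
          sum_le_sum fun p _ => ih _ _ ((erase_subset _ _).trans hA)
      _ = (mins r A).card * m ^ s := by rw [sum_const, smul_eq_mul]
      _ ≤ m * m ^ s := Nat.mul_le_mul_right _ (card_mins_le hm hr hA)
      _ = m ^ (s + 1) := by ring

lemma G_ge {m N : ℕ} (hr : BO m N r) (s : ℕ) : ∀ A B : Finset ℕ, Up r N A → Up r N B → B ⊆ A →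
    B.card + s = A.card → 1 ≤ G r s A B := by
  induction s with
  | zero =>
    intro A B _ _ hBA hs
    have : B = A := eq_of_subset_of_card_le hBA (by omega)
    rw [G, if_pos this.symm]
  | succ s ih =>
    intro A B hA hB hBA hs
    have hne : (A \ B).Nonempty := by
      rw [← card_pos, card_sdiff_of_subset hBA]
      omega
    obtain ⟨p, hp⟩ : ∃ p, p = (A \ B).min' hne := ⟨_, rfl⟩
    have hpm : p ∈ A \ B := by rw [hp]; exact min'_mem _ _
    rw [mem_sdiff] at hpm
    have hpmin : p ∈ mins r A := by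
      rw [mem_mins]
      refine ⟨hpm.1, fun q hq h => ?_⟩
      have h1 := hr.le q p (mem_range.mp (hA.1 hq)) (mem_range.mp (hA.1 hpm.1)) h
      by_cases hqB : q ∈ B
      · exact absurd (hB.2 q hqB p (mem_range.mp (hA.1 hpm.1)) h) hpm.2
      · refine le_antisymm h1 ?_
        rw [hp]
        exact min'_le _ _ (mem_sdiff.mpr ⟨hq, hqB⟩)
    rw [G]
    have h2 := card_erase_mins hpmin
    refine (ih (A.erase p) B (hA.erase hpmin) hB ?_ (by omega)).trans
      (single_le_sum (f := fun p => G r s (A.erase p) B) (fun _ _ => Nat.zero_le _) hpmin)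
    intro q hq
    rw [mem_erase]
    exact ⟨fun h => hpm.2 (h ▸ hq), hBA hq⟩

lemma G_ne {N : ℕ} (s : ℕ) : ∀ A B : Finset ℕ, Up r N A → G r s A B ≠ 0 →
    Up r N B ∧ B.card + s = A.card := by
  induction s with
  | zero =>
    intro A B hA h
    rw [G] at h
    split_ifs at h with h1
    · rw [← h1]; exact ⟨hA, rfl⟩
    · exact absurd rfl h
  | succ s ih =>
    intro A B hA h
    rw [G] at h
    obtain ⟨p, hp, h1⟩ := exists_ne_zero_of_sum_ne_zero h
    obtain ⟨h2, h3⟩ := ih _ _ (hA.erase hp) h1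
    have := card_erase_mins hp
    exact ⟨h2, by omega⟩

lemma F_exp {N : ℕ} (k s : ℕ) : ∀ A : Finset ℕ, A ⊆ range N →
    F r (k + s) A = ∑ B ∈ (range N).powerset, G r s A B * F r k B := by
  induction s with
  | zero =>
    intro A hA
    simp only [G, add_zero, ite_mul, one_mul, zero_mul]
    rw [Finset.sum_ite_eq, if_pos (mem_powerset.mpr hA)]
  | succ s ih =>
    intro A hA
    rw [← add_assoc, F]
    calc ∑ p ∈ mins r A, F r (k + s) (A.erase p)
        = ∑ p ∈ mins r A, ∑ B ∈ (range N).powerset, G r s (A.erase p) B * F r k B :=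
          sum_congr rfl fun p _ => ih _ ((erase_subset _ _).trans hA)
      _ = ∑ B ∈ (range N).powerset, ∑ p ∈ mins r A, G r s (A.erase p) B * F r k B := sum_comm
      _ = _ := by
          refine sum_congr rfl fun B _ => ?_
          rw [G, sum_mul]

lemma F1_exp {m N : ℕ} (hm : 1 ≤ m) (hr : BO m N r) {x y : ℕ} (hy : y < N) (k : ℕ)
    (hk : N + m ≤ y + k) (s : ℕ) : ∀ A : Finset ℕ, A ⊆ range N → A.card = k + s →
    F1 r x y (k + s) A = ∑ B ∈ (range N).powerset, G r s A B * F1 r x y k B := by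
  induction s with
  | zero =>
    intro A hA _
    simp only [G, add_zero, ite_mul, one_mul, zero_mul]
    rw [Finset.sum_ite_eq, if_pos (mem_powerset.mpr hA)]
  | succ s ih =>
    intro A hA hc
    have hcN : A.card ≤ N := by
      have := card_le_card hA
      rwa [card_range] at this
    have hnm : y ∉ mins r A :=
      not_mins hm hr hA (t := N - A.card) (by omega) (card_pos.mp (by omega)) hy (by omega)
    have hf : (mins r A).filter (fun p => p = y → x ∉ A) = mins r A := by
      apply filter_true_of_mem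
      intro p hp h
      exact absurd (h ▸ hp) hnm
    rw [← add_assoc, F1, hf]
    calc ∑ p ∈ mins r A, F1 r x y (k + s) (A.erase p)
        = ∑ p ∈ mins r A, ∑ B ∈ (range N).powerset, G r s (A.erase p) B * F1 r x y k B := by
          refine sum_congr rfl fun p hp => ih _ ((erase_subset _ _).trans hA) ?_
          have := card_erase_mins hp
          omega
      _ = ∑ B ∈ (range N).powerset, ∑ p ∈ mins r A, G r s (A.erase p) B * F1 r x y k B := sum_comm
      _ = _ := by
          refine sum_congr rfl fun B _ => ?_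
          rw [G, sum_mul]

lemma sum_UU {N : ℕ} (k s : ℕ) (A : Finset ℕ) (hA : A ∈ UU r N (k + s)) (f : Finset ℕ → ℕ) :
    ∑ B ∈ (range N).powerset, G r s A B * f B = ∑ B ∈ UU r N k, G r s A B * f B := by
  rw [mem_UU] at hA
  symm
  apply sum_subset (filter_subset _ _)
  intro B hB hBn
  rw [mul_eq_zero]
  left
  by_contra hcon
  obtain ⟨h1, h2⟩ := G_ne s A B hA.1 hcon
  exact hBn (mem_UU.mpr ⟨h1, by omega⟩)

lemma F_UU {N : ℕ} (k s : ℕ) (A : Finset ℕ) (hA : A ∈ UU r N (k + s)) :
    F r (k + s) A = ∑ B ∈ UU r N k, G r s A B * F r k B := by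
  rw [F_exp k s A (mem_UU.mp hA).1.1, sum_UU k s A hA]

lemma F1_UU {m N : ℕ} (hm : 1 ≤ m) (hr : BO m N r) {x y : ℕ} (hy : y < N) (k : ℕ)
    (hk : N + m ≤ y + k) (s : ℕ) (A : Finset ℕ) (hA : A ∈ UU r N (k + s)) :
    F1 r x y (k + s) A = ∑ B ∈ UU r N k, G r s A B * F1 r x y k B := by
  rw [F1_exp hm hr hy k hk s A (mem_UU.mp hA).1.1 (mem_UU.mp hA).2, sum_UU k s A hA]

end

end Pool.Agent.R38.FA
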