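import Pool.Agent.R38.FA.Loc

/-!
# Cutting out a part of a banded order between two equal windows
-/

set_option autoImplicit false

open Finset
open scoped Classical

namespace Pool.Agent.R38.FA

/-- every window of `r'` is a window of `r`, and the first and the last windows agree -/
structure Sub (l N' N : ℕ) (r' r : ℕ → ℕ → Prop) : Prop where
  lN' : l ≤ N'
  lN : l ≤ N
  win : ∀ a, a + l ≤ N' → ∃ b, b + l ≤ N ∧ Win l r' a r b
  first : Win l r' 0 r 0
  last : Win l r' (N' - l) r (N - l)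

lemma Win.trans {l a b c : ℕ} {r r' r'' : ℕ → ℕ → Prop} (h1 : Win l r a r' b)
    (h2 : Win l r' b r'' c) : Win l r a r'' c :=
  fun i j hi hj => (h1 i j hi hj).trans (h2 i j hi hj)

lemma Win.refl (l : ℕ) (r : ℕ → ℕ → Prop) (a : ℕ) : Win l r a r a := fun _ _ _ _ => Iff.rfl

lemma Sub.refl {l N : ℕ} (hl : l ≤ N) (r : ℕ → ℕ → Prop) : Sub l N N r r where
  lN' := hl
  lN := hl
  win a ha := ⟨a, ha, Win.refl l r a⟩
  first := Win.refl l r 0
  last := Win.refl l r _

lemma Sub.trans {l N'' N' N : ℕ} {r'' r' r : ℕ → ℕ → Prop} (h1 : Sub l N'' N' r'' r')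
    (h2 : Sub l N' N r' r) : Sub l N'' N r'' r where
  lN' := h1.lN'
  lN := h2.lN
  win a ha := by
    obtain ⟨b, hb, h3⟩ := h1.win a ha
    obtain ⟨c, hc, h4⟩ := h2.win b hb
    exact ⟨c, hc, h3.trans h4⟩
  first := h1.first.trans h2.first
  last := h1.last.trans h2.last

/-- the comparison through a window -/
lemma via {m l N N' a b j : ℕ} {r r' : ℕ → ℕ → Prop} (hb : b + l ≤ N) (hw : Win l r' a r b)
    {x y : ℕ} (hxy : x ≠ y) (hxa : a ≤ x) (hya : a ≤ y) (hxl : x < a + l) (hyl : y < a + l)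
    (h1 : ∀ u v, u < l → v < l → u ≠ v → (u = x - a ∧ v = y - a ∨ u = y - a ∧ v = x - a) →
      |pr r' N' (a + u) (a + v) - pr (sh r' a) l u v| ≤ 2 * th m j ∧
      |pr r N (b + u) (b + v) - pr (sh r b) l u v| ≤ 2 * th m j) :
    ∃ u v, u < N ∧ v < N ∧ u ≠ v ∧ (r' x y ↔ r u v) ∧ (r' y x ↔ r v u) ∧
      |pr r' N' x y - pr r N u v| ≤ 4 * th m j ∧ |pr r' N' y x - pr r N v u| ≤ 4 * th m j := by
  obtain ⟨x', rfl⟩ : ∃ x', x = a + x' := ⟨x - a, by omega⟩
  obtain ⟨y', rfl⟩ : ∃ y', y = a + y' := ⟨y - a, by omega⟩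
  refine ⟨b + x', b + y', by omega, by omega, by omega, hw x' y' (by omega) (by omega),
    hw y' x' (by omega) (by omega), ?_, ?_⟩
  · have h2 := h1 x' y' (by omega) (by omega) (by omega) (Or.inl ⟨by omega, by omega⟩)
    rw [hw.pr_eq] at h2
    have h3 := abs_le.mp h2.1
    have h4 := abs_le.mp h2.2
    rw [abs_le]
    constructor <;> linarith [h3.1, h3.2, h4.1, h4.2]
  · have h2 := h1 y' x' (by omega) (by omega) (by omega) (Or.inr ⟨by omega, by omega⟩)
    rw [hw.pr_eq] at h2
    have h3 := abs_le.mp h2.1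
    have h4 := abs_le.mp h2.2
    rw [abs_le]
    constructor <;> linarith [h3.1, h3.2, h4.1, h4.2]

/-- comparison of the probabilities -/
theorem compare {m l N N' j : ℕ} {r r' : ℕ → ℕ → Prop} (hm : 1 ≤ m) (hr : BO m N r)
    (hr' : BO m N' r') (hs : Sub l N' N r' r) (hl : 2 * (2 * m * j + m + 1) + m ≤ l)
    {x y : ℕ} (hx : x < N') (hy : y < N') (hxy : x ≠ y) (h1 : x < y + m) (h2 : y < x + m) :
    ∃ u v, u < N ∧ v < N ∧ u ≠ v ∧ (r' x y ↔ r u v) ∧ (r' y x ↔ r v u) ∧
      |pr r' N' x y - pr r N u v| ≤ 4 * th m j ∧ |pr r' N' y x - pr r N v u| ≤ 4 * th m j := by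
  obtain ⟨R, hR⟩ : ∃ R, R = 2 * m * j + m + 1 := ⟨_, rfl⟩
  rw [← hR] at hl
  have hlN := hs.lN
  have hlN' := hs.lN'
  by_cases hA : x + R ≤ l ∧ y + R ≤ l
  · apply via (a := 0) (b := 0) (l := l) (by omega) hs.first hxy (by omega) (by omega)
      (by omega) (by omega)
    rintro u v hu hv huv (⟨h3, h4⟩ | ⟨h3, h4⟩)
    · exact ⟨window_first hm hr' hlN' hu hv huv (by omega),
        window_first hm hr hlN hu hv huv (by omega)⟩
    · exact ⟨window_first hm hr' hlN' hu hv huv (by omega),
        window_first hm hr hlN hu hv huv (by omega)⟩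
  · by_cases hB : N' - l + R ≤ x ∧ N' - l + R ≤ y
    · apply via (a := N' - l) (b := N - l) (l := l) (by omega) hs.last hxy (by omega) (by omega)
        (by omega) (by omega)
      rintro u v hu hv huv (⟨h3, h4⟩ | ⟨h3, h4⟩)
      · exact ⟨window_last hm hr' (by omega) hu hv huv (by omega),
          window_last hm hr (by omega) hu hv huv (by omega)⟩
      · exact ⟨window_last hm hr' (by omega) hu hv huv (by omega),
          window_last hm hr (by omega) hu hv huv (by omega)⟩
    · obtain ⟨lo, hlo⟩ : ∃ lo, lo = min x y := ⟨_, rfl⟩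
      have hlox : lo ≤ x := by rw [hlo]; exact min_le_left _ _
      have hloy : lo ≤ y := by rw [hlo]; exact min_le_right _ _
      have hlo' : lo = x ∨ lo = y := by rw [hlo]; exact min_choice x y
      have hRlo : R ≤ lo := by
        rcases hlo' with h | h <;> by_contra hcon <;> apply hA <;> constructor <;> omega
      have hup : lo - R + l ≤ N' := by
        rcases hlo' with h | h <;> by_contra hcon <;> apply hB <;> constructor <;> omega
      obtain ⟨b, hb, hw⟩ := hs.win (lo - R) hup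
      have hxl : x < lo - R + l := by rcases hlo' with h | h <;> omega
      have hyl : y < lo - R + l := by rcases hlo' with h | h <;> omega
      have hx' : x - (lo - R) + R ≤ l := by rcases hlo' with h | h <;> omega
      have hy' : y - (lo - R) + R ≤ l := by rcases hlo' with h | h <;> omega
      apply via (a := lo - R) (b := b) (l := l) hb hw hxy (by omega) (by omega) hxl hyl
      rintro u v hu hv huv (⟨h3, h4⟩ | ⟨h3, h4⟩)
      · exact ⟨window_mid hm hr' hup hu hv huv (by omega) (by omega),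
          window_mid hm hr hb hu hv huv (by omega) (by omega)⟩
      · exact ⟨window_mid hm hr' hup hu hv huv (by omega) (by omega),
          window_mid hm hr hb hu hv huv (by omega) (by omega)⟩

/-- the relation after cutting out the part between the windows at `s` and `s + d` -/
def cut (l s d : ℕ) (r : ℕ → ℕ → Prop) : ℕ → ℕ → Prop := fun i j =>
  if i < s + l ∧ j < s + l then r i j else if s ≤ i ∧ s ≤ j then r (i + d) (j + d) else i ≤ j

section

variable {l s d : ℕ} {r : ℕ → ℕ → Prop}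

lemma cut_left {i j : ℕ} (hi : i < s + l) (hj : j < s + l) : cut l s d r i j ↔ r i j := by
  unfold cut
  rw [if_pos ⟨hi, hj⟩]

lemma cut_right (hw : Win l r s r (s + d)) {i j : ℕ} (hi : s ≤ i) (hj : s ≤ j) :
    cut l s d r i j ↔ r (i + d) (j + d) := by
  by_cases h : i < s + l ∧ j < s + l
  · rw [cut_left h.1 h.2]
    have h1 := hw (i - s) (j - s) (by omega) (by omega)
    rw [show s + (i - s) = i by omega, show s + (j - s) = j by omega,
      show s + d + (i - s) = i + d by omega, show s + d + (j - s) = j + d by omega] at h1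
    exact h1
  · unfold cut
    rw [if_neg h, if_pos ⟨hi, hj⟩]

lemma cut_else {i j : ℕ} (h1 : ¬ (i < s + l ∧ j < s + l)) (h2 : ¬ (s ≤ i ∧ s ≤ j)) :
    cut l s d r i j ↔ i ≤ j := by
  unfold cut
  rw [if_neg h1, if_neg h2]

theorem BO.cut {m N : ℕ} (hr : BO m N r) (hN : s + d + l ≤ N) (hw : Win l r s r (s + d)) :
    BO m (N - d) (cut l s d r) where
  refl i hi := by
    by_cases h : i < s + l
    · rw [cut_left h h]; exact hr.refl i (by omega)
    · rw [cut_right hw (by omega) (by omega)]; exact hr.refl _ (by omega)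
  le i j hi hj h := by
    by_cases h1 : i < s + l ∧ j < s + l
    · rw [cut_left h1.1 h1.2] at h; exact hr.le i j (by omega) (by omega) h
    · by_cases h2 : s ≤ i ∧ s ≤ j
      · rw [cut_right hw h2.1 h2.2] at h
        have := hr.le _ _ (by omega) (by omega) h
        omega
      · rw [cut_else h1 h2] at h; exact h
  band i j hj h := by
    by_cases h1 : i < s + l ∧ j < s + l
    · rw [cut_left h1.1 h1.2]; exact hr.band i j (by omega) h
    · by_cases h2 : s ≤ i ∧ s ≤ j
      · rw [cut_right hw h2.1 h2.2]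
        exact hr.band _ _ (by omega) (by omega)
      · rw [cut_else h1 h2]; omega
  trans i j k hi hj hk hij hjk := by
    have hle : ∀ i j, i < N - d → j < N - d → Pool.Agent.R38.FA.cut l s d r i j → i ≤ j := by
      intro i j hi hj h
      by_cases h1 : i < s + l ∧ j < s + l
      · rw [cut_left h1.1 h1.2] at h; exact hr.le i j (by omega) (by omega) h
      · by_cases h2 : s ≤ i ∧ s ≤ j
        · rw [cut_right hw h2.1 h2.2] at h
          have := hr.le _ _ (by omega) (by omega) h
          omega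
        · rw [cut_else h1 h2] at h; exact h
    have h1 := hle i j hi hj hij
    have h2 := hle j k hj hk hjk
    by_cases h3 : k < s + l
    · rw [cut_left (by omega) (by omega)] at hij hjk ⊢
      exact hr.trans i j k (by omega) (by omega) (by omega) hij hjk
    · by_cases h4 : s ≤ i
      · rw [cut_right hw (by omega) (by omega)] at hij hjk ⊢
        exact hr.trans _ _ _ (by omega) (by omega) (by omega) hij hjk
      · rw [cut_else (by omega) (by omega)]
        omega

theorem sub_cut {N : ℕ} (hN : s + d + l ≤ N) (hw : Win l r s r (s + d)) :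
    Sub l (N - d) N (cut l s d r) r where
  lN' := by omega
  lN := by omega
  win a ha := by
    by_cases h : a ≤ s
    · exact ⟨a, by omega, fun i j hi hj => cut_left (by omega) (by omega)⟩
    · refine ⟨a + d, by omega, fun i j hi hj => ?_⟩
      rw [cut_right hw (by omega) (by omega), show a + i + d = a + d + i by omega,
        show a + j + d = a + d + j by omega]
  first := fun i j hi hj => cut_left (by omega) (by omega)
  last := by
    intro i j hi hj
    rw [cut_right hw (by omega) (by omega), show N - d - l + i + d = N - l + i by omega,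
      show N - d - l + j + d = N - l + j by omega]

end

/-- there is an antichain with `w` elements -/
def HasAnti (N w : ℕ) (r : ℕ → ℕ → Prop) : Prop :=
  ∃ S : Finset ℕ, S ⊆ range N ∧ S.card = w ∧ ∀ a ∈ S, ∀ b ∈ S, a ≠ b → ¬ r a b

lemma anti_left {l s d N w : ℕ} {r : ℕ → ℕ → Prop} (hN : s + d + l ≤ N)
    {S : Finset ℕ} (hc : S.card = w) (ha : ∀ a ∈ S, ∀ b ∈ S, a ≠ b → ¬ r a b)
    (hS : ∀ a ∈ S, a < s + l) : HasAnti (N - d) w (cut l s d r) := by
  refine ⟨S, fun a h => mem_range.mpr (by have := hS a h; omega), hc, fun a h1 b h2 h3 => ?_⟩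
  rw [cut_left (hS a h1) (hS b h2)]
  exact ha a h1 b h2 h3

lemma anti_right {l s d N w : ℕ} {r : ℕ → ℕ → Prop} (hw : Win l r s r (s + d))
    {S : Finset ℕ} (hSN : S ⊆ range N) (hc : S.card = w)
    (ha : ∀ a ∈ S, ∀ b ∈ S, a ≠ b → ¬ r a b)
    (hS : ∀ a ∈ S, s + d ≤ a) : HasAnti (N - d) w (cut l s d r) := by
  refine ⟨S.image (fun a => a - d), ?_, ?_, ?_⟩
  · intro a h
    rw [mem_image] at h
    obtain ⟨b, hb, rfl⟩ := h
    have h1 := mem_range.mp (hSN hb)
    have h2 := hS b hb
    rw [mem_range]; omega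
  · rw [card_image_of_injOn, hc]
    intro a h1 b h2 h3
    have h4 := hS a h1
    have h5 := hS b h2
    simp only at h3
    omega
  · intro a h1 b h2 h3
    rw [mem_image] at h1 h2
    obtain ⟨a', h1, rfl⟩ := h1
    obtain ⟨b', h2, rfl⟩ := h2
    have h4 := hS a' h1
    have h5 := hS b' h2
    rw [cut_right hw (by omega) (by omega), show a' - d + d = a' by omega,
      show b' - d + d = b' by omega]
    exact ha a' h1 b' h2 (by omega)

/-- with three equal windows there is a shorter order with the same properties -/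
lemma shorter {m l N w s t u : ℕ} {r : ℕ → ℕ → Prop} (hr : BO m N r) (hml : m ≤ l)
    (hst : s < t) (htu : t < u) (huN : u + l ≤ N) (hw1 : Win l r s r t) (hw2 : Win l r t r u)
    (ha : HasAnti N w r) :
    ∃ (N' : ℕ) (r' : ℕ → ℕ → Prop), N' < N ∧ BO m N' r' ∧ Sub l N' N r' r ∧ HasAnti N' w r' := by
  obtain ⟨S, hSN, hc, hS⟩ := ha
  obtain ⟨d, rfl⟩ : ∃ d, t = s + d := ⟨t - s, by omega⟩
  obtain ⟨e, rfl⟩ : ∃ e, u = s + d + e := ⟨u - (s + d), by omega⟩
  by_cases h : ∀ a ∈ S, s + d ≤ a
  · exact ⟨N - d, cut l s d r, by omega, hr.cut (by omega) hw1, sub_cut (by omega) hw1,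
      anti_right hw1 hSN hc hS h⟩
  · push Not at h
    obtain ⟨a, ha, had⟩ := h
    refine ⟨N - e, cut l (s + d) e r, by omega, hr.cut (by omega) hw2, sub_cut (by omega) hw2,
      anti_left (by omega) hc hS ?_⟩
    intro b hb
    by_contra hcon
    exact hS a ha b hb (by omega) (hr.band a b (mem_range.mp (hSN hb)) (by omega))

/-- the type of a window -/
noncomputable def ty (l : ℕ) (r : ℕ → ℕ → Prop) (a : ℕ) : Finset (Fin l × Fin l) :=
  univ.filter fun p => r (a + p.1) (a + p.2)

lemma ty_win {l a b : ℕ} {r : ℕ → ℕ → Prop} (h : ty l r a = ty l r b) : Win l r a r b := by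
  intro i j hi hj
  have h1 : ((⟨i, hi⟩, ⟨j, hj⟩) : Fin l × Fin l) ∈ ty l r a ↔
    ((⟨i, hi⟩, ⟨j, hj⟩) : Fin l × Fin l) ∈ ty l r b := by rw [h]
  simpa [ty] using h1

/-- **Short orders with the same windows.** -/
theorem short {m l N w : ℕ} {r : ℕ → ℕ → Prop} (hr : BO m N r) (hml : m ≤ l) (hl : l ≤ N)
    (ha : HasAnti N w r) :
    ∃ (N' : ℕ) (r' : ℕ → ℕ → Prop), N' ≤ 2 ^ (l * l) * 2 + l ∧ BO m N' r' ∧ Sub l N' N r' r ∧
      HasAnti N' w r' := by
  have hex : ∃ N' : ℕ, ∃ r' : ℕ → ℕ → Prop, BO m N' r' ∧ Sub l N' N r' r ∧ HasAnti N' w r' :=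
    ⟨N, r, hr, Sub.refl hl r, ha⟩
  obtain ⟨r', h1, h2, h3⟩ := Nat.find_spec hex
  refine ⟨Nat.find hex, r', ?_, h1, h2, h3⟩
  by_contra hcon
  push Not at hcon
  obtain ⟨N', hN'⟩ : ∃ N', N' = Nat.find hex := ⟨_, rfl⟩
  rw [← hN'] at h1 h2 h3 hcon
  have hcard : (univ : Finset (Finset (Fin l × Fin l))).card * 2 < (range (N' - l)).card := by
    rw [card_range, card_univ, Fintype.card_finset, Fintype.card_prod, Fintype.card_fin]
    omega
  obtain ⟨T, -, hT⟩ := exists_lt_card_fiber_of_mul_lt_card_of_maps_to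
    (s := range (N' - l)) (t := univ) (f := ty l r') (fun _ _ => mem_univ _) hcard
  obtain ⟨Q, hQ⟩ : ∃ Q, Q = (range (N' - l)).filter (fun a => ty l r' a = T) := ⟨_, rfl⟩
  rw [← hQ] at hT
  have hne : Q.Nonempty := card_pos.mp (by omega)
  obtain ⟨t, ht, ht'⟩ : ∃ t ∈ Q, t ∉ ({Q.min' hne, Q.max' hne} : Finset ℕ) := by
    by_contra hcon'
    push Not at hcon'
    have h4 : Q ⊆ {Q.min' hne, Q.max' hne} := fun t ht => hcon' t ht
    have h5 := card_le_card h4
    have h6 := card_le_two (a := Q.min' hne) (b := Q.max' hne)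
    omega
  rw [mem_insert, mem_singleton, not_or] at ht'
  have hmin := min'_mem Q hne
  have hmax := max'_mem Q hne
  have h4 : Q.min' hne < t := lt_of_le_of_ne (min'_le _ _ ht) (Ne.symm ht'.1)
  have h5 : t < Q.max' hne := lt_of_le_of_ne (le_max' _ _ ht) ht'.2
  have hq : ∀ a ∈ Q, a < N' - l ∧ ty l r' a = T := by
    intro a ha
    rw [hQ, mem_filter, mem_range] at ha
    exact ha
  obtain ⟨N'', r'', h6, h7, h8, h9⟩ := shorter h1 hml h4 h5 (by have := (hq _ hmax).1; omega)
    (ty_win ((hq _ hmin).2.trans (hq _ ht).2.symm)) (ty_win ((hq _ ht).2.trans (hq _ hmax).2.symm))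
    h3
  exact absurd (Nat.find_min' hex ⟨r'', h7, h8.trans h2, h9⟩) (by omega)

end Pool.Agent.R38.FA
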