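import Pool.Agent.R38.FA.Cut
import Pool.Agent.Y491.ID.Main
import Pool.Agent.Y352.KSR.Final

/-!
# Partial orders on `Fin n`: labelling, thin posets are banded, transport of the balance constant
-/

set_option autoImplicit false

open Finset
open scoped Classical

namespace Pool.Agent.R38.FA

/-- the number of linear extensions of the relation `r` -/
noncomputable def ext {n : ℕ} (r : Fin n → Fin n → Prop) : ℕ :=
  Nat.card {σ : Equiv.Perm (Fin n) // ∀ a b, r a b → σ a ≤ σ b}

/-- the number of linear extensions in which `x` comes before `y` -/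
noncomputable def extLt {n : ℕ} (r : Fin n → Fin n → Prop) (x y : Fin n) : ℕ :=
  Nat.card {σ : Equiv.Perm (Fin n) // (∀ a b, r a b → σ a ≤ σ b) ∧ σ x < σ y}

/-- the probability that `x` comes before `y` in a random linear extension -/
noncomputable def prob {n : ℕ} (r : Fin n → Fin n → Prop) (x y : Fin n) : ℝ :=
  (extLt r x y : ℝ) / (ext r : ℝ)

/-- the balance constant -/
noncomputable def balance {n : ℕ} (r : Fin n → Fin n → Prop) : ℝ :=
  sSup {t : ℝ | ∃ x y : Fin n, ¬ r x y ∧ ¬ r y x ∧ t = min (prob r x y) (prob r y x)}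

/-- `r` is a partial order of width `w` -/
def IsPosetOfWidth {n : ℕ} (r : Fin n → Fin n → Prop) (w : ℕ) : Prop :=
  (∀ a, r a a) ∧ (∀ a b c, r a b → r b c → r a c) ∧ (∀ a b, r a b → r b a → a = b) ∧
  (∃ s : Finset (Fin n), s.card = w ∧ ∀ a ∈ s, ∀ b ∈ s, a ≠ b → ¬ r a b) ∧
  (∀ s : Finset (Fin n), (∀ a ∈ s, ∀ b ∈ s, a ≠ b → ¬ r a b) → s.card ≤ w)

section

variable {n : ℕ} {r : Fin n → Fin n → Prop}

lemma extLt_add (x y : Fin n) : extLt r x y + extLt r y x ≤ ext r := by
  unfold extLt ext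
  rw [Nat.card_eq_fintype_card, Nat.card_eq_fintype_card, Nat.card_eq_fintype_card,
    Fintype.card_subtype, Fintype.card_subtype, Fintype.card_subtype, ← card_union_of_disjoint]
  · apply card_le_card
    intro σ hσ
    rw [mem_union, mem_filter, mem_filter] at hσ
    rw [mem_filter]
    rcases hσ with h | h
    · exact ⟨mem_univ _, h.2.1⟩
    · exact ⟨mem_univ _, h.2.1⟩
  · rw [disjoint_left]
    intro σ h1 h2
    rw [mem_filter] at h1 h2
    exact absurd h1.2.2 (not_lt.mpr h2.2.2.le)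

lemma min_le_half (x y : Fin n) : min (prob r x y) (prob r y x) ≤ 1 / 2 := by
  have h1 : (extLt r x y : ℝ) + extLt r y x ≤ ext r := by exact_mod_cast extLt_add x y
  have h2 : prob r x y + prob r y x ≤ 1 := by
    unfold prob
    rw [← add_div]
    exact div_le_one_of_le₀ h1 (Nat.cast_nonneg _)
  rcases le_total (prob r x y) (prob r y x) with h | h
  · rw [min_eq_left h]; linarith
  · rw [min_eq_right h]; linarith

lemma prob_nonneg (x y : Fin n) : 0 ≤ prob r x y := by
  unfold prob; positivity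

lemma balance_nonneg : 0 ≤ balance r := by
  apply Real.sSup_nonneg
  rintro t ⟨x, y, -, -, rfl⟩
  exact le_min (prob_nonneg x y) (prob_nonneg y x)

lemma balance_le_half : balance r ≤ 1 / 2 := by
  apply Real.sSup_le _ (by norm_num)
  rintro t ⟨x, y, -, -, rfl⟩
  exact min_le_half x y

lemma le_balance {x y : Fin n} (h1 : ¬ r x y) (h2 : ¬ r y x) :
    min (prob r x y) (prob r y x) ≤ balance r := by
  apply le_csSup
  · refine ⟨1 / 2, ?_⟩
    rintro t ⟨x, y, -, -, rfl⟩
    exact min_le_half x y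
  · exact ⟨x, y, h1, h2, rfl⟩

end

/-- a linear extension exists -/
lemma exists_label {n : ℕ} {r : Fin n → Fin n → Prop} (h1 : ∀ a, r a a)
    (h2 : ∀ a b c, r a b → r b c → r a c) (h3 : ∀ a b, r a b → r b a → a = b) :
    ∃ σ : Equiv.Perm (Fin n), ∀ a b, r a b → σ a ≤ σ b := by
  have hr : Pool.Agent.H293R3.BC.IsPo r := ⟨h1, h2, h3⟩
  let _ : PartialOrder (Pool.Agent.Y352.KSR.CC n) := Pool.Agent.Y352.KSR.po r hr
  have hcard : Fintype.card (Pool.Agent.Y352.KSR.CC n) = n := Fintype.card_fin n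
  have h4 := Pool.Agent.TH161.KS.eN_pos (Pool.Agent.Y352.KSR.CC n)
  have e1 := Pool.Agent.Y352.KSR.eN_card hcard
  have e1' : Pool.Agent.TH161.LW.eN (Pool.Agent.Y352.KSR.CC n) =
    Nat.card {σ : Equiv.Perm (Fin n) // ∀ a b, r a b → σ a ≤ σ b} := e1
  rw [e1'] at h4
  obtain ⟨σ, hσ⟩ := (Nat.card_pos_iff.mp h4).1
  exact ⟨σ, hσ⟩

/-- a poset with an element incomparable to many elements -/
theorem wide : ∃ B : ℝ, 0 < B ∧ ∀ ε : ℝ, 0 < ε → ε ≤ 1 / 2 → ∀ (n : ℕ)
    (r : Fin n → Fin n → Prop), (∀ a, r a a) → (∀ a b c, r a b → r b c → r a c) →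
    (∀ a b, r a b → r b a → a = b) → ∀ x : Fin n,
    Real.exp (B * Real.log (2 / ε) ^ 3 / ε ^ 4) ≤ Nat.card {y : Fin n // ¬ r x y ∧ ¬ r y x} →
    1 / 2 - ε ≤ balance r := by
  obtain ⟨B, hB, hW⟩ := Pool.Agent.Y491.ID.incomparable
  refine ⟨B, hB, fun ε hε hε2 n r h1 h2 h3 x hx => ?_⟩
  rcases hε2.lt_or_eq with hε3 | rfl
  · have hr : Pool.Agent.H293R3.BC.IsPo r := ⟨h1, h2, h3⟩
    let _ : PartialOrder (Pool.Agent.Y352.KSR.CC n) := Pool.Agent.Y352.KSR.po r hr
    have hcard : Fintype.card (Pool.Agent.Y352.KSR.CC n) = n := Fintype.card_fin n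
    obtain ⟨u, v, -, h4, h5⟩ := hW ε hε hε2 (Pool.Agent.Y352.KSR.CC n) x hx
    have he : (0 : ℝ) < Pool.Agent.TH161.LW.eN (Pool.Agent.Y352.KSR.CC n) := by
      exact_mod_cast Pool.Agent.TH161.KS.eN_pos (Pool.Agent.Y352.KSR.CC n)
    have hpos : (0 : ℝ) < (1 / 2 - ε) * Pool.Agent.TH161.LW.eN (Pool.Agent.Y352.KSR.CC n) :=
      mul_pos (by linarith) he
    have e1 := Pool.Agent.Y352.KSR.eN_card hcard
    have e2 := Pool.Agent.Y352.KSR.eP_card hcard u v
    have e3 := Pool.Agent.Y352.KSR.eP_card hcard v u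
    have e1' : Pool.Agent.TH161.LW.eN (Pool.Agent.Y352.KSR.CC n) = ext r := e1
    have e2' : Pool.Agent.TH161.LW.eP (Pool.Agent.Y352.KSR.CC n) u v = extLt r u v := e2
    have e3' : Pool.Agent.TH161.LW.eP (Pool.Agent.Y352.KSR.CC n) v u = extLt r v u := e3
    have hn1 : ¬ r u v := by
      intro h
      have h6 : Pool.Agent.TH161.LW.eP (Pool.Agent.Y352.KSR.CC n) v u = 0 :=
        Pool.Agent.Y352.KSR.eP_zero (x := u) (y := v) h
      rw [h6, Nat.cast_zero] at h5
      linarith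
    have hn2 : ¬ r v u := by
      intro h
      have h6 : Pool.Agent.TH161.LW.eP (Pool.Agent.Y352.KSR.CC n) u v = 0 :=
        Pool.Agent.Y352.KSR.eP_zero (x := v) (y := u) h
      rw [h6, Nat.cast_zero] at h4
      linarith
    refine le_trans (le_min ?_ ?_) (le_balance hn1 hn2)
    · unfold prob
      rw [e1', e2'] at h4
      rw [e1'] at he
      rw [le_div_iff₀ he]; exact h4
    · unfold prob
      rw [e1', e3'] at h5
      rw [e1'] at he
      rw [le_div_iff₀ he]; exact h5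
  · have := balance_nonneg (r := r)
    linarith

/-- the relation on labels -/
def lab {n : ℕ} (r : Fin n → Fin n → Prop) (σ : Equiv.Perm (Fin n)) : ℕ → ℕ → Prop := fun i j =>
  ∃ (hi : i < n) (hj : j < n), r (σ.symm ⟨i, hi⟩) (σ.symm ⟨j, hj⟩)

section

variable {n : ℕ} {r : Fin n → Fin n → Prop} {σ : Equiv.Perm (Fin n)}

lemma lab_iff (a b : Fin n) : lab r σ (σ a) (σ b) ↔ r a b := by
  unfold lab
  constructor
  · rintro ⟨h1, h2, h3⟩
    simpa using h3
  · intro h
    exact ⟨(σ a).2, (σ b).2, by simpa using h⟩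

lemma lab_iff' {i j : ℕ} (hi : i < n) (hj : j < n) :
    lab r σ i j ↔ r (σ.symm ⟨i, hi⟩) (σ.symm ⟨j, hj⟩) := by
  unfold lab
  exact ⟨fun ⟨_, _, h⟩ => h, fun h => ⟨hi, hj, h⟩⟩

lemma cN_lab : cN (lab r σ) n = ext r := by
  unfold cN ext
  refine Nat.card_congr (Equiv.subtypeEquiv (Equiv.equivCongr σ.symm (Equiv.refl _)) fun τ => ?_)
  simp only [Equiv.equivCongr_apply_apply, Equiv.symm_symm, Equiv.refl_apply]
  constructor
  · intro h a b hab
    exact h _ _ ((lab_iff a b).mpr hab)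
  · intro h a b hab
    have h1 := h (σ.symm a) (σ.symm b) ((lab_iff' a.2 b.2).mp hab)
    simpa using h1

lemma cP_lab (x y : Fin n) : cP (lab r σ) n (σ x) (σ y) = extLt r x y := by
  unfold cP extLt
  refine Nat.card_congr (Equiv.subtypeEquiv (Equiv.equivCongr σ.symm (Equiv.refl _)) fun τ => ?_)
  simp only [Equiv.equivCongr_apply_apply, Equiv.symm_symm, Equiv.refl_apply]
  refine and_congr ?_ Iff.rfl
  constructor
  · intro h a b hab
    exact h _ _ ((lab_iff a b).mpr hab)
  · intro h a b hab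
    have h1 := h (σ.symm a) (σ.symm b) ((lab_iff' a.2 b.2).mp hab)
    simpa using h1

lemma pr_lab (x y : Fin n) : pr (lab r σ) n (σ x) (σ y) = prob r x y := by
  unfold pr prob
  rw [dif_pos ⟨(σ x).2, (σ y).2⟩, cN_lab, Fin.eta, Fin.eta, cP_lab]

/-- thin posets are banded -/
lemma band_lab (h1 : ∀ a, r a a) (h2 : ∀ a b c, r a b → r b c → r a c)
    (hσ : ∀ a b, r a b → σ a ≤ σ b) {K : ℕ}
    (hK : ∀ x : Fin n, Nat.card {y : Fin n // ¬ r x y ∧ ¬ r y x} ≤ K) :
    BO (2 * K + 2) n (lab r σ) where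
  refl i hi := (lab_iff' hi hi).mpr (h1 _)
  trans i j k hi hj hk hij hjk := by
    rw [lab_iff' hi hj] at hij
    rw [lab_iff' hj hk] at hjk
    rw [lab_iff' hi hk]
    exact h2 _ _ _ hij hjk
  le i j hi hj h := by
    rw [lab_iff' hi hj] at h
    have := hσ _ _ h
    simpa using this
  band i j hj hij := by
    by_contra hcon
    have hi : i < n := by omega
    -- the set of the labels incomparable to a label
    have key : ∀ i < n, ((Ico 0 n).filter fun k => ¬ lab r σ i k ∧ ¬ lab r σ k i).card ≤ K := by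
      intro i hi
      refine le_trans ?_ (hK (σ.symm ⟨i, hi⟩))
      rw [Nat.card_eq_fintype_card, Fintype.card_subtype]
      apply card_le_card_of_injOn (fun k => if hk : k < n then σ.symm ⟨k, hk⟩ else σ.symm ⟨i, hi⟩)
      · intro k hk
        have hk' : k ∈ (Ico 0 n).filter fun k => ¬ lab r σ i k ∧ ¬ lab r σ k i := hk
        rw [mem_filter, mem_Ico] at hk'
        have h3 := hk'.1.2
        rw [lab_iff' hi h3, lab_iff' h3 hi] at hk'
        show (if hk : k < n then σ.symm ⟨k, hk⟩ else σ.symm ⟨i, hi⟩) ∈ _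
        rw [dif_pos h3]
        simpa using hk'.2
      · intro k hk k' hk' h
        have hk1 : k ∈ (Ico 0 n).filter fun k => ¬ lab r σ i k ∧ ¬ lab r σ k i := hk
        have hk2 : k' ∈ (Ico 0 n).filter fun k => ¬ lab r σ i k ∧ ¬ lab r σ k i := hk'
        rw [mem_filter, mem_Ico] at hk1 hk2
        simp only [dif_pos hk1.1.2, dif_pos hk2.1.2] at h
        have := σ.symm.injective h
        simpa using this
    have hle : ∀ i j, i < n → j < n → lab r σ i j → i ≤ j := by
      intro i j hi hj h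
      rw [lab_iff' hi hj] at h
      have := hσ _ _ h
      simpa using this
    have h4 : Ioo i j ⊆ ((Ico 0 n).filter fun k => ¬ lab r σ i k ∧ ¬ lab r σ k i) ∪
        ((Ico 0 n).filter fun k => ¬ lab r σ j k ∧ ¬ lab r σ k j) := by
      intro k hk
      rw [mem_Ioo] at hk
      rw [mem_union, mem_filter, mem_filter, mem_Ico]
      by_cases h5 : lab r σ i k
      · right
        refine ⟨⟨by omega, by omega⟩, fun h6 => ?_, fun h6 => ?_⟩
        · have := hle _ _ hj (by omega) h6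
          omega
        · apply hcon
          rw [lab_iff' hi (by omega : k < n)] at h5
          rw [lab_iff' (by omega : k < n) hj] at h6
          rw [lab_iff' hi hj]
          exact h2 _ _ _ h5 h6
      · left
        refine ⟨⟨by omega, by omega⟩, h5, fun h6 => ?_⟩
        have := hle _ _ (by omega) hi h6
        omega
    have h5 := (card_le_card h4).trans (card_union_le _ _)
    rw [Nat.card_Ioo] at h5
    have h6 := key i hi
    have h7 := key j hj
    omega

lemma hasAnti_lab {w : ℕ} (h : ∃ s : Finset (Fin n), s.card = w ∧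
    ∀ a ∈ s, ∀ b ∈ s, a ≠ b → ¬ r a b) : HasAnti n w (lab r σ) := by
  obtain ⟨s, h1, h2⟩ := h
  refine ⟨s.image (fun a => (σ a : ℕ)), ?_, ?_, ?_⟩
  · intro k hk
    rw [mem_image] at hk
    obtain ⟨a, -, rfl⟩ := hk
    exact mem_range.mpr (σ a).2
  · rw [card_image_of_injective _ (fun a b hab => σ.injective (Fin.ext hab)), h1]
  · intro i hi j hj hij
    rw [mem_image] at hi hj
    obtain ⟨a, ha, rfl⟩ := hi
    obtain ⟨b, hb, rfl⟩ := hj
    rw [lab_iff]
    exact h2 a ha b hb (fun h => hij (by rw [h]))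

lemma of_hasAnti_lab {w : ℕ} (h : HasAnti n w (lab r σ)) : ∃ s : Finset (Fin n), s.card = w ∧
    ∀ a ∈ s, ∀ b ∈ s, a ≠ b → ¬ r a b := by
  obtain ⟨S, h1, h2, h3⟩ := h
  refine ⟨univ.filter fun a => (σ a : ℕ) ∈ S, ?_, ?_⟩
  · rw [← h2]
    apply card_bij (fun a _ => (σ a : ℕ))
    · intro a ha
      rw [mem_filter] at ha
      exact ha.2
    · intro a _ b _ hab
      exact σ.injective (Fin.ext hab)
    · intro k hk
      have hkn := mem_range.mp (h1 hk)
      refine ⟨σ.symm ⟨k, hkn⟩, ?_, by simp⟩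
      rw [mem_filter]
      refine ⟨mem_univ _, ?_⟩
      simpa using hk
  · intro a ha b hb hab
    rw [mem_filter] at ha hb
    rw [← lab_iff (r := r) (σ := σ) a b]
    exact h3 _ ha.2 _ hb.2 (fun h => hab (σ.injective (Fin.ext h)))

end

lemma HasAnti.sub {m l N' N w : ℕ} {r' r : ℕ → ℕ → Prop} (hr' : BO m N' r')
    (hml : m ≤ l) (hl : 1 ≤ l) (hs : Sub l N' N r' r) (ha : HasAnti N' w r') : HasAnti N w r := by
  obtain ⟨S, h1, h2, h3⟩ := ha
  rcases S.eq_empty_or_nonempty with rfl | hne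
  · exact ⟨∅, by simp, h2, by simp⟩
  obtain ⟨q, hq⟩ : ∃ q, q = S.min' hne := ⟨_, rfl⟩
  have hqS : q ∈ S := by rw [hq]; exact min'_mem _ _
  have hle : ∀ a ∈ S, q ≤ a := fun a ha => by rw [hq]; exact min'_le _ _ ha
  have hlt : ∀ a ∈ S, a < q + m ∨ a = q := by
    intro a ha
    by_contra hcon
    push Not at hcon
    exact h3 q hqS a ha (Ne.symm hcon.2) (hr'.band _ _ (mem_range.mp (h1 ha)) hcon.1)
  have hlN := hs.lN'
  obtain ⟨a, ha1, ha2⟩ : ∃ a, a + l ≤ N' ∧ ∀ x ∈ S, a ≤ x ∧ x < a + l := by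
    by_cases h : q + l ≤ N'
    · refine ⟨q, h, fun x hx => ⟨hle x hx, ?_⟩⟩
      rcases hlt x hx with h4 | h4
      · omega
      · omega
    · refine ⟨N' - l, by omega, fun x hx => ?_⟩
      have h4 := hle x hx
      have h5 := mem_range.mp (h1 hx)
      omega
  obtain ⟨b, hb, hw⟩ := hs.win a ha1
  refine ⟨S.image (fun x => b + (x - a)), ?_, ?_, ?_⟩
  · intro k hk
    rw [mem_image] at hk
    obtain ⟨x, hx, rfl⟩ := hk
    have := ha2 x hx
    rw [mem_range]; omega
  · rw [card_image_of_injOn, h2]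
    intro x hx y hy hxy
    have h4 := ha2 x hx
    have h5 := ha2 y hy
    simp only at hxy
    omega
  · intro i hi j hj hij
    rw [mem_image] at hi hj
    obtain ⟨x, hx, rfl⟩ := hi
    obtain ⟨y, hy, rfl⟩ := hj
    have h4 := ha2 x hx
    have h5 := ha2 y hy
    rw [← hw (x - a) (y - a) (by omega) (by omega), show a + (x - a) = x by omega,
      show a + (y - a) = y by omega]
    exact h3 x hx y hy (fun h => hij (by rw [h]))

end Pool.Agent.R38.FA
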