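import Pool.Agent.R38.FA.Osc
import Pool.Agent.H13R3.WB.Count

/-!
# Linear extensions as permutations, and the counts by remaining sets
-/

set_option autoImplicit false

open Finset
open scoped Classical

namespace Pool.Agent.R38.FA

open Pool.Agent.H13R3.WB

/-- the number of linear extensions of the relation `r` on `{0, …, n - 1}` -/
noncomputable def cN (r : ℕ → ℕ → Prop) (n : ℕ) : ℕ :=
  Nat.card {σ : Equiv.Perm (Fin n) // ∀ a b : Fin n, r a b → σ a ≤ σ b}

/-- the number of those in which `x` comes before `y` -/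
noncomputable def cP (r : ℕ → ℕ → Prop) (n : ℕ) (x y : Fin n) : ℕ :=
  Nat.card {σ : Equiv.Perm (Fin n) // (∀ a b : Fin n, r a b → σ a ≤ σ b) ∧ σ x < σ y}

/-- shifted relation -/
def sh (r : ℕ → ℕ → Prop) (a : ℕ) : ℕ → ℕ → Prop := fun i j => r (a + i) (a + j)

section

variable {r : ℕ → ℕ → Prop} {n : ℕ}

/-- initial segments closed under the relation -/
def Low (r : ℕ → ℕ → Prop) (n : ℕ) (J : Finset (Fin n)) : Prop :=
  ∀ p ∈ J, ∀ q : Fin n, r q p → q ∈ J

lemma low_iff (σ : Equiv.Perm (Fin n)) :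
    (∀ a b : Fin n, r a b → σ a ≤ σ b) ↔ ∀ k ≤ n, Low r n (Hs σ k) := by
  constructor
  · intro h k _ p hp q hq
    have h1 := h q p hq
    simp only [Hs, mem_filter, mem_univ, true_and] at hp ⊢
    have h2 : (σ q : ℕ) ≤ (σ p : ℕ) := h1
    omega
  · intro h a b hab
    have h1 := h ((σ b : ℕ) + 1) (by have := (σ b).2; omega) b (by simp [Hs]) a hab
    simp only [Hs, mem_filter, mem_univ, true_and] at h1
    exact Fin.le_def.mpr (by omega)

lemma before_iff (σ : Equiv.Perm (Fin n)) (x y : Fin n) (hxy : x ≠ y) :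
    σ x < σ y ↔ ∀ k ≤ n, y ∈ Hs σ k → x ∈ Hs σ k := by
  constructor
  · intro h k _ hy
    simp only [Hs, mem_filter, mem_univ, true_and] at hy ⊢
    have h2 : (σ x : ℕ) < (σ y : ℕ) := h
    omega
  · intro h
    have h1 := h ((σ y : ℕ) + 1) (by have := (σ y).2; omega) (by simp [Hs])
    simp only [Hs, mem_filter, mem_univ, true_and] at h1
    have h2 : (σ x : ℕ) ≠ (σ y : ℕ) := fun h3 => hxy (σ.injective (Fin.ext h3))
    exact Fin.lt_def.mpr (by omega)

/-- the remaining elements, shifted -/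
def ph (a : ℕ) (J : Finset (Fin n)) : Finset ℕ :=
  (univ \ J).map ⟨fun i : Fin n => a + (i : ℕ), fun i j hij => Fin.ext (by simpa using hij)⟩

lemma mem_ph {a : ℕ} {J : Finset (Fin n)} {q : ℕ} :
    q ∈ ph a J ↔ ∃ p : Fin n, p ∉ J ∧ a + (p : ℕ) = q := by
  unfold ph
  rw [Finset.mem_map]
  constructor
  · rintro ⟨p, hp, h⟩
    exact ⟨p, (Finset.mem_sdiff.mp hp).2, h⟩
  · rintro ⟨p, hp, h⟩
    exact ⟨p, Finset.mem_sdiff.mpr ⟨mem_univ _, hp⟩, h⟩

lemma mem_ph' {a : ℕ} {J : Finset (Fin n)} {p : Fin n} :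
    a + (p : ℕ) ∈ ph a J ↔ p ∉ J := by
  rw [mem_ph]
  constructor
  · rintro ⟨q, hq, h⟩
    have : q = p := Fin.ext (by omega)
    rwa [this] at hq
  · intro h; exact ⟨p, h, rfl⟩

lemma ph_insert {a : ℕ} {J : Finset (Fin n)} {p : Fin n} :
    ph a (insert p J) = (ph a J).erase (a + (p : ℕ)) := by
  ext q
  rw [mem_erase]
  constructor
  · intro hq
    obtain ⟨p', h1, rfl⟩ := mem_ph.mp hq
    rw [mem_insert, not_or] at h1
    refine ⟨fun h => h1.1 (Fin.ext (by omega)), mem_ph'.mpr h1.2⟩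
  · rintro ⟨h1, h2⟩
    obtain ⟨p', h3, rfl⟩ := mem_ph.mp h2
    rw [mem_ph', mem_insert, not_or]
    exact ⟨fun h => h1 (by rw [h]), h3⟩

lemma mins_ph {a : ℕ} {J : Finset (Fin n)} (hJ : Low (sh r a) n J) {p : Fin n} :
    a + (p : ℕ) ∈ mins r (ph a J) ↔ p ∉ J ∧ Low (sh r a) n (insert p J) := by
  rw [mem_mins, mem_ph']
  constructor
  · rintro ⟨h1, h2⟩
    refine ⟨h1, fun p' hp' q hq => ?_⟩
    rw [mem_insert] at hp' ⊢
    rcases hp' with rfl | hp'
    · by_cases hqJ : q ∈ J
      · exact Or.inr hqJ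
      · left
        have := h2 (a + (q : ℕ)) (mem_ph'.mpr hqJ) hq
        exact Fin.ext (by omega)
    · exact Or.inr (hJ p' hp' q hq)
  · rintro ⟨h1, h2⟩
    refine ⟨h1, fun q hq hrq => ?_⟩
    obtain ⟨q', h3, rfl⟩ := mem_ph.mp hq
    have := h2 p (mem_insert_self _ _) q' hrq
    rw [mem_insert] at this
    rcases this with h | h
    · rw [h]
    · exact absurd h h3

lemma D_eq (a : ℕ) (m : ℕ) : ∀ J : Finset (Fin n), Low (sh r a) n J →
    D (Low (sh r a) n) m J = F r m (ph a J) := by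
  induction m with
  | zero => intro J _; simp [D, F]
  | succ m ih =>
    intro J hJ
    rw [D, F]
    apply sum_nbij (fun p : Fin n => a + (p : ℕ))
    · intro p hp
      rw [mem_filter] at hp
      exact (mins_ph hJ).mpr hp.2
    · intro p _ q _ h
      exact Fin.ext (by simpa using h)
    · intro q hq
      have hq' : q ∈ mins r (ph a J) := hq
      obtain ⟨p, h1, rfl⟩ := mem_ph.mp (mem_mins.mp hq').1
      refine ⟨p, ?_, rfl⟩
      have h2 := (mins_ph hJ).mp hq'
      simpa using h2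
    · intro p hp
      rw [mem_filter] at hp
      rw [ih _ hp.2.2, ph_insert]

lemma D1_eq (a : ℕ) (x y : Fin n) (hxy : x ≠ y) (m : ℕ) : ∀ J : Finset (Fin n),
    Low (sh r a) n J → (y ∈ J → x ∈ J) →
    D (fun J => Low (sh r a) n J ∧ (y ∈ J → x ∈ J)) m J =
      F1 r (a + x) (a + y) m (ph a J) := by
  induction m with
  | zero => intro J _ _; simp [D, F1]
  | succ m ih =>
    intro J hJ hxyJ
    rw [D, F1]
    apply sum_nbij (fun p : Fin n => a + (p : ℕ))
    · intro p hp
      rw [mem_filter] at hp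
      rw [mem_filter]
      refine ⟨(mins_ph hJ).mpr ⟨hp.2.1, hp.2.2.1⟩, fun h => ?_⟩
      have hpy : p = y := Fin.ext (by omega)
      rw [mem_ph']
      push Not
      have h1 := hp.2.2.2 (by rw [hpy]; exact mem_insert_self _ _)
      rw [mem_insert] at h1
      rcases h1 with h1 | h1
      · exact absurd (h1.trans hpy) hxy
      · exact h1
    · intro p _ q _ h
      exact Fin.ext (by simpa using h)
    · intro q hq
      have hq' : q ∈ (mins r (ph a J)).filter (fun p => p = a + (y : ℕ) → a + (x : ℕ) ∉ ph a J) :=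
        hq
      rw [mem_filter] at hq'
      obtain ⟨p, h1, rfl⟩ := mem_ph.mp (mem_mins.mp hq'.1).1
      refine ⟨p, ?_, rfl⟩
      have h2 := (mins_ph hJ).mp hq'.1
      have h3 : y ∈ insert p J → x ∈ insert p J := by
        intro h4
        rw [mem_insert] at h4
        rcases h4 with h4 | h4
        · have h5 := hq'.2 (by rw [h4])
          rw [mem_ph'] at h5
          push Not at h5
          exact mem_insert_of_mem h5
        · exact mem_insert_of_mem (hxyJ h4)
      have h6 : p ∈ univ.filter (fun p => p ∉ J ∧ (Low (sh r a) n (insert p J) ∧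
        (y ∈ insert p J → x ∈ insert p J))) := by
        rw [mem_filter]; exact ⟨mem_univ _, h2.1, h2.2, h3⟩
      exact_mod_cast h6
    · intro p hp
      rw [mem_filter] at hp
      rw [ih _ hp.2.2.1 hp.2.2.2, ph_insert]

lemma ph_empty (a : ℕ) : ph (n := n) a ∅ = Ico a (a + n) := by
  ext q
  rw [mem_ph, mem_Ico]
  constructor
  · rintro ⟨p, -, rfl⟩
    have := p.2
    omega
  · intro h
    exact ⟨⟨q - a, by omega⟩, by simp, by simp only; omega⟩

theorem cN_eq (a : ℕ) : cN (sh r a) n = F r n (Ico a (a + n)) := by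
  have h0 : Low (sh r a) n ∅ := by intro p hp; simp at hp
  rw [← ph_empty, ← D_eq a n ∅ h0, ← card_count (Low (sh r a) n) (Fintype.card_fin n) h0]
  unfold cN
  rw [Nat.card_eq_fintype_card, Fintype.card_subtype]
  congr 1
  ext σ
  rw [mem_filter, mem_filter]
  rw [low_iff]

theorem cP_eq (a : ℕ) (x y : Fin n) (hxy : x ≠ y) :
    cP (sh r a) n x y = F1 r (a + x) (a + y) n (Ico a (a + n)) := by
  have h0 : Low (sh r a) n ∅ := by intro p hp; simp at hp
  have h1 : y ∈ (∅ : Finset (Fin n)) → x ∈ (∅ : Finset (Fin n)) := by simp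
  rw [← ph_empty, ← D1_eq a x y hxy n ∅ h0 h1,
    ← card_count (fun J => Low (sh r a) n J ∧ (y ∈ J → x ∈ J)) (Fintype.card_fin n) ⟨h0, h1⟩]
  unfold cP
  rw [Nat.card_eq_fintype_card, Fintype.card_subtype]
  congr 1
  ext σ
  rw [mem_filter, mem_filter, low_iff, before_iff σ x y hxy]
  constructor
  · rintro ⟨h2, h3, h4⟩
    exact ⟨h2, fun k hk => ⟨h3 k hk, h4 k hk⟩⟩
  · rintro ⟨h2, h3⟩
    exact ⟨h2, fun k hk => (h3 k hk).1, fun k hk => (h3 k hk).2⟩

end

end Pool.Agent.R38.FA
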