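import Pool.Agent.R38.FA.Link

/-!
# The probability that `x` comes before `y` is determined, up to a small error, by a window
-/

set_option autoImplicit false

open Finset
open scoped Classical

namespace Pool.Agent.R38.FA

/-- the probability that `x` comes before `y` -/
noncomputable def pr (r : ℕ → ℕ → Prop) (n x y : ℕ) : ℝ :=
  if h : x < n ∧ y < n then (cP r n ⟨x, h.1⟩ ⟨y, h.2⟩ : ℝ) / (cN r n : ℝ) else 0

/-- the reversed relation -/
def rv (n : ℕ) (r : ℕ → ℕ → Prop) : ℕ → ℕ → Prop := fun i j => r (n - (j + 1)) (n - (i + 1))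

variable {r : ℕ → ℕ → Prop}

lemma sh_zero (r : ℕ → ℕ → Prop) : sh r 0 = r := by
  funext i j
  simp [sh]

lemma pr_eq {n x y : ℕ} (a : ℕ) (hx : x < n) (hy : y < n) (hxy : x ≠ y) :
    pr (sh r a) n x y = h r (a + x) (a + y) n (Ico a (a + n)) := by
  unfold pr h
  rw [dif_pos ⟨hx, hy⟩, cN_eq, cP_eq a ⟨x, hx⟩ ⟨y, hy⟩ (by simpa [Fin.ext_iff] using hxy)]

lemma pr_congr {r' : ℕ → ℕ → Prop} {n : ℕ} (hrr : ∀ i j, i < n → j < n → (r i j ↔ r' i j))
    (x y : ℕ) : pr r n x y = pr r' n x y := by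
  unfold pr
  have e1 : cN r n = cN r' n := by
    unfold cN
    refine Nat.card_congr (Equiv.subtypeEquivRight fun σ => ?_)
    exact forall_congr' fun a => forall_congr' fun b => by rw [hrr a b a.2 b.2]
  split_ifs with hh
  · have e2 : cP r n ⟨x, hh.1⟩ ⟨y, hh.2⟩ = cP r' n ⟨x, hh.1⟩ ⟨y, hh.2⟩ := by
      unfold cP
      refine Nat.card_congr (Equiv.subtypeEquivRight fun σ => ?_)
      have : (∀ a b : Fin n, r a b → σ a ≤ σ b) ↔ (∀ a b : Fin n, r' a b → σ a ≤ σ b) :=
        forall_congr' fun a => forall_congr' fun b => by rw [hrr a b a.2 b.2]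
      rw [this]
    rw [e1, e2]
  · rfl

lemma rev_val {n : ℕ} (a : Fin n) : ((Fin.rev a : Fin n) : ℕ) = n - ((a : ℕ) + 1) :=
  Fin.val_rev a

lemma cN_rv {n : ℕ} : cN (rv n r) n = cN r n := by
  unfold cN
  refine Nat.card_congr (Equiv.subtypeEquiv (Equiv.permCongr Fin.revPerm) fun σ => ?_)
  simp only [Equiv.permCongr_apply, Fin.revPerm_apply, Fin.revPerm_symm, Fin.rev_le_rev]
  constructor
  · intro h a b hab
    apply h (Fin.rev b) (Fin.rev a)
    unfold rv
    rw [rev_val, rev_val]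
    have ha := a.2
    have hb := b.2
    rw [show n - (n - ((a : ℕ) + 1) + 1) = (a : ℕ) by omega,
      show n - (n - ((b : ℕ) + 1) + 1) = (b : ℕ) by omega]
    exact hab
  · intro h a b hab
    have h1 := h (Fin.rev b) (Fin.rev a) (by
      rw [rev_val, rev_val]
      exact hab)
    rwa [Fin.rev_rev, Fin.rev_rev] at h1

lemma cP_rv {n : ℕ} (x y : Fin n) : cP (rv n r) n (Fin.rev y) (Fin.rev x) = cP r n x y := by
  unfold cP
  refine Nat.card_congr (Equiv.subtypeEquiv (Equiv.permCongr Fin.revPerm) fun σ => ?_)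
  simp only [Equiv.permCongr_apply, Fin.revPerm_apply, Fin.revPerm_symm, Fin.rev_le_rev,
    Fin.rev_lt_rev]
  refine and_congr ?_ Iff.rfl
  constructor
  · intro h a b hab
    apply h (Fin.rev b) (Fin.rev a)
    unfold rv
    rw [rev_val, rev_val]
    have ha := a.2
    have hb := b.2
    rw [show n - (n - ((a : ℕ) + 1) + 1) = (a : ℕ) by omega,
      show n - (n - ((b : ℕ) + 1) + 1) = (b : ℕ) by omega]
    exact hab
  · intro h a b hab
    have h1 := h (Fin.rev b) (Fin.rev a) (by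
      rw [rev_val, rev_val]
      exact hab)
    rwa [Fin.rev_rev, Fin.rev_rev] at h1

lemma pr_rv {n x y : ℕ} (hx : x < n) (hy : y < n) :
    pr (rv n r) n (n - (y + 1)) (n - (x + 1)) = pr r n x y := by
  have h1 : n - (y + 1) < n ∧ n - (x + 1) < n := ⟨by omega, by omega⟩
  have e : pr (rv n r) n (n - (y + 1)) (n - (x + 1)) =
      (cP (rv n r) n ⟨_, h1.1⟩ ⟨_, h1.2⟩ : ℝ) / (cN (rv n r) n : ℝ) := by
    unfold pr
    rw [dif_pos h1]
  have e' : pr r n x y = (cP r n ⟨x, hx⟩ ⟨y, hy⟩ : ℝ) / (cN r n : ℝ) := by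
    unfold pr
    rw [dif_pos ⟨hx, hy⟩]
  have e1 : (⟨n - (y + 1), h1.1⟩ : Fin n) = Fin.rev ⟨y, hy⟩ := by
    apply Fin.ext; rw [rev_val]
  have e2 : (⟨n - (x + 1), h1.2⟩ : Fin n) = Fin.rev ⟨x, hx⟩ := by
    apply Fin.ext; rw [rev_val]
  rw [e, e', cN_rv, e1, e2, cP_rv]

lemma BO.rv {m N : ℕ} (hr : BO m N r) : BO m N (rv N r) where
  refl i hi := hr.refl _ (by omega)
  trans i j k hi hj hk h1 h2 := hr.trans _ _ _ (by omega) (by omega) (by omega) h2 h1
  le i j hi hj h := by
    have := hr.le _ _ (by omega) (by omega) h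
    omega
  band i j hj h := hr.band _ _ (by omega) (by omega)

lemma BO.sh {m c a : ℕ} (hr : BO m (a + c) r) : BO m c (sh r a) where
  refl i hi := hr.refl _ (by omega)
  trans i j k hi hj hk h1 h2 := hr.trans _ _ _ (by omega) (by omega) (by omega) h1 h2
  le i j hi hj h := by
    have := hr.le _ _ (by omega) (by omega) h
    omega
  band i j hj h := hr.band _ _ (by omega) (by omega)

/-- the bound for the error -/
noncomputable def th (m j : ℕ) : ℝ := (1 - 1 / (m : ℝ) ^ (2 * m)) ^ j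

lemma th_nonneg {m : ℕ} (hm : 1 ≤ m) (j : ℕ) : 0 ≤ th m j := by
  unfold th
  apply pow_nonneg
  rw [sub_nonneg, div_le_one (by positivity)]
  exact one_le_pow₀ (by exact_mod_cast hm)

/-- forgetting the lower part -/
theorem right_forget {m a c : ℕ} (hm : 1 ≤ m) (hr : BO m (a + c) r) {x y j : ℕ} (hx : x < c)
    (hy : y < c) (hxy : x ≠ y) (hj : 2 * m * j + m ≤ y) :
    |pr r (a + c) (a + x) (a + y) - pr (sh r a) c x y| ≤ th m j := by
  have h1 := forget hm hr (x := a + x) (y := a + y) (a := a) (j := j) (by omega) (by omega)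
  have e1 : pr r (a + c) (a + x) (a + y) = h r (a + x) (a + y) (a + c) (range (a + c)) := by
    have := pr_eq (r := r) 0 (n := a + c) (x := a + x) (y := a + y) (by omega) (by omega) (by omega)
    rw [sh_zero] at this
    rw [this, range_eq_Ico]
    simp only [zero_add]
  have e2 : pr (sh r a) c x y = h r (a + x) (a + y) (a + c - a) (Ico a (a + c)) := by
    rw [pr_eq a hx hy hxy, show a + c - a = c by omega]
  rw [e1, e2]
  exact h1

/-- forgetting the upper part -/
theorem left_forget {m b c : ℕ} (hm : 1 ≤ m) (hr : BO m (b + c) r) {x y j : ℕ} (hx : x < c)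
    (hy : y < c) (hxy : x ≠ y) (hj : x + 2 * m * j + m + 1 ≤ c) :
    |pr r (b + c) x y - pr r c x y| ≤ th m j := by
  have h1 := right_forget hm hr.rv (a := b) (x := c - (y + 1)) (y := c - (x + 1)) (j := j)
    (by omega) (by omega) (by omega) (by omega)
  have e1 : pr (rv (b + c) r) (b + c) (b + (c - (y + 1))) (b + (c - (x + 1))) =
      pr r (b + c) x y := by
    rw [show b + (c - (y + 1)) = b + c - (y + 1) by omega,
      show b + (c - (x + 1)) = b + c - (x + 1) by omega]
    exact pr_rv (by omega) (by omega)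
  have e2 : sh (rv (b + c) r) b = rv c r := by
    funext i j
    unfold sh rv
    rw [show b + c - (b + j + 1) = c - (j + 1) by omega,
      show b + c - (b + i + 1) = c - (i + 1) by omega]
  rw [e1, e2, pr_rv hx hy] at h1
  exact h1

/-- equal windows -/
def Win (l : ℕ) (r : ℕ → ℕ → Prop) (a : ℕ) (r' : ℕ → ℕ → Prop) (a' : ℕ) : Prop :=
  ∀ i j, i < l → j < l → (r (a + i) (a + j) ↔ r' (a' + i) (a' + j))

lemma Win.pr_eq {l a a' : ℕ} {r' : ℕ → ℕ → Prop} (h : Win l r a r' a') (x y : ℕ) :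
    pr (sh r a) l x y = pr (sh r' a') l x y :=
  pr_congr (fun i j hi hj => h i j hi hj) x y

/-- an interior window -/
theorem window_mid {m N a l : ℕ} (hm : 1 ≤ m) (hr : BO m N r) (hN : a + l ≤ N) {x y j : ℕ}
    (hx : x < l) (hy : y < l) (hxy : x ≠ y) (hj : 2 * m * j + m ≤ y)
    (hj' : x + 2 * m * j + m + 1 ≤ l) :
    |pr r N (a + x) (a + y) - pr (sh r a) l x y| ≤ 2 * th m j := by
  obtain ⟨b, rfl⟩ : ∃ b, N = a + (b + l) := ⟨N - (a + l), by omega⟩
  have h1 := right_forget hm hr (x := x) (y := y) (j := j) (by omega) (by omega) hxy hj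
  have h2 := left_forget hm hr.sh (x := x) (y := y) (j := j) hx hy hxy hj'
  rw [abs_le] at h1 h2 ⊢
  constructor <;> linarith [h1.1, h1.2, h2.1, h2.2]

/-- the first window -/
theorem window_first {m N l : ℕ} (hm : 1 ≤ m) (hr : BO m N r) (hN : l ≤ N) {x y j : ℕ}
    (hx : x < l) (hy : y < l) (hxy : x ≠ y) (hj' : x + 2 * m * j + m + 1 ≤ l) :
    |pr r N (0 + x) (0 + y) - pr (sh r 0) l x y| ≤ 2 * th m j := by
  obtain ⟨b, rfl⟩ : ∃ b, N = b + l := ⟨N - l, by omega⟩
  have h2 := left_forget hm hr (x := x) (y := y) (j := j) hx hy hxy hj'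
  have h3 := th_nonneg hm j
  rw [sh_zero, zero_add, zero_add]
  linarith

/-- the last window -/
theorem window_last {m N a l : ℕ} (hm : 1 ≤ m) (hr : BO m N r) (hN : a + l = N) {x y j : ℕ}
    (hx : x < l) (hy : y < l) (hxy : x ≠ y) (hj : 2 * m * j + m ≤ y) :
    |pr r N (a + x) (a + y) - pr (sh r a) l x y| ≤ 2 * th m j := by
  subst hN
  have h1 := right_forget hm hr (x := x) (y := y) (j := j) hx hy hxy hj
  have h3 := th_nonneg hm j
  linarith

end Pool.Agent.R38.FA
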