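import Pool.Agent.R38.FA.Loc

/-!
# The size of the windows
-/

set_option autoImplicit false

open Finset
open scoped Classical

namespace Pool.Agent.R38.FA

lemma exp_two_gt : (7 : ℝ) < Real.exp 2 := by
  have h1 := Real.exp_one_gt_d9
  have h2 : Real.exp 2 = Real.exp 1 * Real.exp 1 := by rw [← Real.exp_add]; norm_num
  rw [h2]
  nlinarith

lemma exp_three_gt : (18 : ℝ) < Real.exp 3 := by
  have h1 := Real.exp_one_gt_d9
  have h2 := exp_two_gt
  have h3 : Real.exp 3 = Real.exp 2 * Real.exp 1 := by rw [← Real.exp_add]; norm_num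
  rw [h3]
  nlinarith

lemma one_le_log {ε : ℝ} (hε : 0 < ε) (hε2 : ε ≤ 1 / 2) : 1 ≤ Real.log (2 / ε) := by
  rw [Real.le_log_iff_exp_le (by positivity)]
  have h1 := Real.exp_one_lt_d9
  have h2 : (4 : ℝ) ≤ 2 / ε := by
    rw [le_div_iff₀ hε]; linarith
  linarith

lemma log_le_X {ε : ℝ} (hε : 0 < ε) (hε2 : ε ≤ 1 / 2) :
    Real.log (2 / ε) ≤ Real.log (2 / ε) ^ 3 / ε ^ 4 := by
  have h1 := one_le_log hε hε2
  rw [le_div_iff₀ (by positivity)]
  have h2 : ε ^ 4 ≤ 1 := pow_le_one₀ hε.le (by linarith)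
  have h3 : Real.log (2 / ε) ≤ Real.log (2 / ε) ^ 3 := le_self_pow₀ h1 (by norm_num)
  have h4 : Real.log (2 / ε) * ε ^ 4 ≤ Real.log (2 / ε) * 1 :=
    mul_le_mul_of_nonneg_left h2 (by linarith)
  linarith

lemma log_four {ε : ℝ} (hε : 0 < ε) (hε2 : ε ≤ 1 / 2) :
    Real.log (4 / ε) ≤ 2 * (Real.log (2 / ε) ^ 3 / ε ^ 4) := by
  have h1 := log_le_X hε hε2
  have h2 : Real.log (4 / ε) = Real.log 2 + Real.log (2 / ε) := by
    rw [← Real.log_mul (by norm_num) (by positivity)]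
    congr 1
    ring
  have h3 : Real.log 2 ≤ Real.log (2 / ε) := by
    apply Real.log_le_log (by norm_num)
    rw [le_div_iff₀ hε]; linarith
  linarith

theorem numeric {B : ℝ} (hB : 0 < B) {ε : ℝ} (hε : 0 < ε) (hε2 : ε ≤ 1 / 2) {X : ℝ}
    (hX : X = Real.log (2 / ε) ^ 3 / ε ^ 4) {K m : ℕ} (hK : (K : ℝ) ≤ Real.exp (B * X))
    (hm : m = 2 * K + 2) :
    ∃ j : ℕ, 4 * th m j ≤ ε ∧ ∀ l : ℕ, l = 2 * (2 * m * j + m + 1) + m →
      ((2 ^ (l * l) * 2 + l : ℕ) : ℝ) ≤ Real.exp (Real.exp (Real.exp ((2 * B + 7) * X))) := by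
  have hX1 : 1 ≤ X := by
    rw [hX]; exact (one_le_log hε hε2).trans (log_le_X hε hε2)
  have hm2 : 2 ≤ m := by omega
  have hm2' : (2 : ℝ) ≤ m := by exact_mod_cast hm2
  obtain ⟨M, hM⟩ : ∃ M, M = Real.exp ((B + 2) * X) := ⟨_, rfl⟩
  have hXM : X ≤ M := by
    have h1 := Real.add_one_le_exp X
    have h2 : Real.exp X ≤ M := by
      rw [hM]
      apply Real.exp_le_exp.mpr
      nlinarith
    linarith
  have hM1 : 1 ≤ M := by linarith
  have hmM : (m : ℝ) ≤ M := by
    have h1 : (m : ℝ) = 2 * K + 2 := by rw [hm]; push_cast; ring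
    have h2 : 1 ≤ Real.exp (B * X) := Real.one_le_exp (by positivity)
    have h3 : (4 : ℝ) ≤ Real.exp (2 * X) := by
      have h4 := exp_two_gt
      have h5 : Real.exp 2 ≤ Real.exp (2 * X) := Real.exp_le_exp.mpr (by linarith)
      linarith
    have h4 : M = Real.exp (B * X) * Real.exp (2 * X) := by
      rw [hM, ← Real.exp_add]; congr 1; ring
    rw [h1, h4]
    nlinarith
  obtain ⟨β, hβ⟩ : ∃ β : ℝ, β = (m : ℝ) ^ (2 * m) := ⟨_, rfl⟩
  have hβ1 : 1 ≤ β := by rw [hβ]; exact one_le_pow₀ (by linarith)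
  have hlog : 0 < Real.log (4 / ε) := by
    apply Real.log_pos
    rw [lt_div_iff₀ hε]; linarith
  have hlog2 : Real.log (4 / ε) ≤ 2 * X := by rw [hX]; exact log_four hε hε2
  have hβM : β ≤ Real.exp (2 * M ^ 2) := by
    have h1 : (m : ℝ) ≤ Real.exp m := by
      have := Real.add_one_le_exp (m : ℝ)
      linarith
    have h2 : β ≤ (Real.exp m) ^ (2 * m) := by
      rw [hβ]; exact pow_le_pow_left₀ (by linarith) h1 _
    rw [← Real.exp_nat_mul] at h2
    refine h2.trans (Real.exp_le_exp.mpr ?_)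
    push_cast
    nlinarith
  refine ⟨⌈β * Real.log (4 / ε)⌉₊, ?_, ?_⟩
  · obtain ⟨j, hj⟩ : ∃ j, j = ⌈β * Real.log (4 / ε)⌉₊ := ⟨_, rfl⟩
    rw [← hj]
    have hj1 : β * Real.log (4 / ε) ≤ j := by rw [hj]; exact Nat.le_ceil _
    unfold th
    rw [← hβ]
    have h1 : 1 - 1 / β ≤ Real.exp (-(1 / β)) := Real.one_sub_le_exp_neg _
    have h2 : 0 ≤ 1 - 1 / β := by
      rw [sub_nonneg, div_le_one (by linarith)]; exact hβ1
    have h3 : (1 - 1 / β) ^ j ≤ Real.exp (-(1 / β)) ^ j := pow_le_pow_left₀ h2 h1 _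
    rw [← Real.exp_nat_mul] at h3
    have h4 : Real.exp ((j : ℝ) * -(1 / β)) ≤ Real.exp (-Real.log (4 / ε)) := by
      apply Real.exp_le_exp.mpr
      have h5 : Real.log (4 / ε) ≤ (j : ℝ) * (1 / β) := by
        rw [mul_one_div, le_div_iff₀ (by linarith), mul_comm]
        exact hj1
      linarith
    have h5 : Real.exp (-Real.log (4 / ε)) = ε / 4 := by
      rw [Real.exp_neg, Real.exp_log (by positivity), inv_div]
    linarith
  · intro l hl
    obtain ⟨j, hj⟩ : ∃ j, j = ⌈β * Real.log (4 / ε)⌉₊ := ⟨_, rfl⟩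
    rw [← hj] at hl
    have hj0 : 1 ≤ j := by
      rw [hj]
      exact Nat.ceil_pos.mpr (by positivity)
    have hj0' : (1 : ℝ) ≤ j := by exact_mod_cast hj0
    have hj2 : (j : ℝ) ≤ Real.exp (2 * M ^ 2) * Real.exp (2 * X) := by
      have h1 : (j : ℝ) < β * Real.log (4 / ε) + 1 := by
        rw [hj]; exact Nat.ceil_lt_add_one (by positivity)
      have h2 : β * Real.log (4 / ε) ≤ Real.exp (2 * M ^ 2) * (2 * X) :=
        mul_le_mul hβM hlog2 hlog.le (Real.exp_pos _).le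
      have h3 := Real.add_one_le_exp (2 * X)
      have h4 : 1 ≤ Real.exp (2 * M ^ 2) := Real.one_le_exp (by positivity)
      nlinarith
    have hl1 : (l : ℝ) ≤ 9 * m * j := by
      rw [hl]
      push_cast
      nlinarith
    have hlM : (l : ℝ) ≤ Real.exp (8 * M ^ 2) := by
      have h1 : (m : ℝ) ≤ Real.exp M := by
        have := Real.add_one_le_exp M
        linarith
      have h2 : (9 : ℝ) ≤ Real.exp 3 := by have := exp_three_gt; linarith
      have h3 : (9 : ℝ) * m * j ≤ Real.exp 3 * Real.exp M * (Real.exp (2 * M ^ 2) *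
          Real.exp (2 * X)) := by
        apply mul_le_mul _ hj2 (by positivity) (by positivity)
        exact mul_le_mul h2 h1 (by positivity) (by positivity)
      rw [← Real.exp_add, ← Real.exp_add, ← Real.exp_add] at h3
      refine hl1.trans (h3.trans (Real.exp_le_exp.mpr ?_))
      nlinarith
    have hl0 : 1 ≤ l := by omega
    have hl0' : (1 : ℝ) ≤ l := by exact_mod_cast hl0
    have hll : (l : ℝ) * l ≤ Real.exp (16 * M ^ 2) := by
      have h1 : (l : ℝ) * l ≤ Real.exp (8 * M ^ 2) * Real.exp (8 * M ^ 2) :=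
        mul_le_mul hlM hlM (by positivity) (by positivity)
      rw [← Real.exp_add] at h1
      refine h1.trans (Real.exp_le_exp.mpr (by linarith))
    have h2l : (2 : ℝ) ^ (l * l) ≤ Real.exp ((l : ℝ) * l) := by
      have h1 : (2 : ℝ) ≤ Real.exp 1 := by have := Real.exp_one_gt_d9; linarith
      have h2 : (2 : ℝ) ^ (l * l) ≤ Real.exp 1 ^ (l * l) := pow_le_pow_left₀ (by norm_num) h1 _
      rw [← Real.exp_nat_mul] at h2
      push_cast at h2
      rwa [mul_one] at h2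
    have h3l : (l : ℝ) ≤ Real.exp ((l : ℝ) * l) := by
      have h1 := Real.add_one_le_exp ((l : ℝ) * l)
      nlinarith
    have h4 : ((2 ^ (l * l) * 2 + l : ℕ) : ℝ) ≤ Real.exp ((l : ℝ) * l + 2) := by
      push_cast
      rw [Real.exp_add]
      have h5 := exp_two_gt
      have h6 := Real.exp_pos ((l : ℝ) * l)
      nlinarith
    refine h4.trans (Real.exp_le_exp.mpr ?_)
    have h7 : (l : ℝ) * l + 2 ≤ Real.exp (16 * M ^ 2 + 2) := by
      rw [Real.exp_add]
      have h5 := exp_two_gt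
      have h6 : 1 ≤ Real.exp (16 * M ^ 2) := Real.one_le_exp (by positivity)
      nlinarith
    refine h7.trans (Real.exp_le_exp.mpr ?_)
    have h8 : 16 * M ^ 2 + 2 ≤ 18 * M ^ 2 := by nlinarith
    refine h8.trans ?_
    have h9 : M ^ 2 = Real.exp (2 * ((B + 2) * X)) := by
      rw [hM, ← Real.exp_nat_mul]
      push_cast
      rfl
    have h10 : 18 * M ^ 2 ≤ Real.exp 3 * Real.exp (2 * ((B + 2) * X)) := by
      rw [h9]
      exact mul_le_mul_of_nonneg_right exp_three_gt.le (Real.exp_pos _).le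
    rw [← Real.exp_add] at h10
    refine h10.trans (Real.exp_le_exp.mpr ?_)
    have e : (2 * B + 7) * X = 2 * ((B + 2) * X) + 3 * X := by ring
    rw [e]
    linarith

end Pool.Agent.R38.FA
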