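import Pool.Agent.R38.FA.Label
import Pool.Agent.R38.FA.Num

/-!
# Posets of bounded size approximate all posets of width `w`
-/

set_option autoImplicit false

open Finset
open scoped Classical

namespace Pool.Agent.R38.FA

lemma prob_eq_pr {N : ℕ} (q : ℕ → ℕ → Prop) (x y : Fin N) :
    prob (fun a b : Fin N => q a b) x y = pr q N x y := by
  unfold prob pr
  rw [dif_pos ⟨x.2, y.2⟩]
  rfl

/-- a thin poset can be shortened -/
theorem thin_case {n w K m j l : ℕ} {r : Fin n → Fin n → Prop} (hr : IsPosetOfWidth r w)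
    (hK : ∀ x : Fin n, Nat.card {y : Fin n // ¬ r x y ∧ ¬ r y x} ≤ K) (hm : m = 2 * K + 2)
    (hl : l = 2 * (2 * m * j + m + 1) + m) :
    ∃ (n' : ℕ) (r' : Fin n' → Fin n' → Prop), IsPosetOfWidth r' w ∧
      n' ≤ 2 ^ (l * l) * 2 + l ∧ balance r' ≤ balance r + 4 * th m j := by
  have hth := th_nonneg (m := m) (by omega) j
  rcases lt_or_ge n l with hnl | hnl
  · exact ⟨n, r, hr, by omega, by linarith⟩
  obtain ⟨h1, h2, h3, h4, h5⟩ := hr
  obtain ⟨σ, hσ⟩ := exists_label h1 h2 h3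
  have hB : BO m n (lab r σ) := by
    rw [hm]; exact band_lab h1 h2 hσ hK
  obtain ⟨N', q, h6, h7, h8, h9⟩ := short (w := w) hB (l := l) (by omega) hnl (hasAnti_lab h4)
  refine ⟨N', fun a b => q a b, ⟨?_, ?_, ?_, ?_, ?_⟩, h6, ?_⟩
  · intro a; exact h7.refl _ a.2
  · intro a b c hab hbc; exact h7.trans _ _ _ a.2 b.2 c.2 hab hbc
  · intro a b hab hba
    have e1 := h7.le _ _ a.2 b.2 hab
    have e2 := h7.le _ _ b.2 a.2 hba
    exact Fin.ext (by omega)
  · obtain ⟨S, e1, e2, e3⟩ := h9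
    refine ⟨univ.filter fun a => (a : ℕ) ∈ S, ?_, ?_⟩
    · rw [← e2]
      apply card_bij (fun (a : Fin N') _ => (a : ℕ))
      · intro a ha
        rw [mem_filter] at ha
        exact ha.2
      · intro a _ b _ hab
        exact Fin.ext hab
      · intro k hk
        refine ⟨⟨k, mem_range.mp (e1 hk)⟩, ?_, rfl⟩
        rw [mem_filter]
        exact ⟨mem_univ _, hk⟩
    · intro a ha b hb hab
      rw [mem_filter] at ha hb
      exact e3 _ ha.2 _ hb.2 (fun h => hab (Fin.ext h))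
  · intro s hs
    have e1 : HasAnti N' s.card q := by
      refine ⟨s.image (fun a : Fin N' => (a : ℕ)), ?_, ?_, ?_⟩
      · intro k hk
        rw [mem_image] at hk
        obtain ⟨a, -, rfl⟩ := hk
        exact mem_range.mpr a.2
      · rw [card_image_of_injective _ (fun a b hab => Fin.ext hab)]
      · intro i hi k hk hik
        rw [mem_image] at hi hk
        obtain ⟨a, ha, rfl⟩ := hi
        obtain ⟨b, hb, rfl⟩ := hk
        exact hs a ha b hb (fun h => hik (by rw [h]))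
    obtain ⟨s', e2, e3⟩ := of_hasAnti_lab (e1.sub h7 (by omega) (by omega) h8)
    rw [← e2]
    exact h5 s' e3
  · apply Real.sSup_le
    · rintro t ⟨x, y, hxy, hyx, rfl⟩
      have hne : (x : ℕ) ≠ y := by
        intro h
        have : x = y := Fin.ext h
        subst this
        exact hxy (h7.refl _ x.2)
      have e1 : (x : ℕ) < y + m := by
        by_contra hcon
        exact hyx (h7.band _ _ x.2 (by omega))
      have e2 : (y : ℕ) < x + m := by
        by_contra hcon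
        exact hxy (h7.band _ _ y.2 (by omega))
      obtain ⟨u, v, hu, hv, huv, e3, e4, e5, e6⟩ :=
        compare (m := m) (j := j) (by omega) hB h7 h8 (by omega) x.2 y.2 hne e1 e2
      have f1 : ¬ r (σ.symm ⟨u, hu⟩) (σ.symm ⟨v, hv⟩) := by
        rw [← lab_iff' (r := r) (σ := σ) hu hv, ← e3]; exact hxy
      have f2 : ¬ r (σ.symm ⟨v, hv⟩) (σ.symm ⟨u, hu⟩) := by
        rw [← lab_iff' (r := r) (σ := σ) hv hu, ← e4]; exact hyx
      have f3 := le_balance f1 f2
      have f4 : prob r (σ.symm ⟨u, hu⟩) (σ.symm ⟨v, hv⟩) = pr (lab r σ) n u v := by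
        rw [← pr_lab (σ := σ)]; simp
      have f5 : prob r (σ.symm ⟨v, hv⟩) (σ.symm ⟨u, hu⟩) = pr (lab r σ) n v u := by
        rw [← pr_lab (σ := σ)]; simp
      rw [f4, f5] at f3
      rw [prob_eq_pr, prob_eq_pr]
      have g1 := (abs_le.mp e5).2
      have g2 := (abs_le.mp e6).2
      rcases min_choice (pr (lab r σ) n u v) (pr (lab r σ) n v u) with g | g
      · rw [g] at f3
        exact (min_le_left _ _).trans (by linarith)
      · rw [g] at f3
        exact (min_le_right _ _).trans (by linarith)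
    · have := balance_nonneg (r := r)
      linarith

/-- the antichain -/
lemma anti_width (w : ℕ) : IsPosetOfWidth (fun a b : Fin w => a = b) w := by
  refine ⟨fun _ => rfl, fun _ _ _ h1 h2 => h1.trans h2, fun _ _ h _ => h,
    ⟨univ, by simp, fun a _ b _ h => h⟩, fun s _ => ?_⟩
  have := card_le_univ s
  rwa [Fintype.card_fin] at this

/-- **Approximation by posets of bounded size.** -/
theorem approx : ∃ C : ℝ, 0 < C ∧ ∀ (ε : ℝ), 0 < ε → ε ≤ 1 / 2 → ∀ (w n : ℕ)
    (r : Fin n → Fin n → Prop), IsPosetOfWidth r w →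
    ∃ (n' : ℕ) (r' : Fin n' → Fin n' → Prop), IsPosetOfWidth r' w ∧
      (n' : ℝ) ≤ max (w : ℝ)
        (Real.exp (Real.exp (Real.exp (C * Real.log (2 / ε) ^ 3 / ε ^ 4)))) ∧
      balance r' ≤ balance r + ε := by
  obtain ⟨B, hB, hW⟩ := wide
  refine ⟨2 * B + 7, by linarith, fun ε hε hε2 w n r hr => ?_⟩
  obtain ⟨X, hX⟩ : ∃ X, X = Real.log (2 / ε) ^ 3 / ε ^ 4 := ⟨_, rfl⟩
  have e0 : (2 * B + 7) * Real.log (2 / ε) ^ 3 / ε ^ 4 = (2 * B + 7) * X := by
    rw [hX, mul_div_assoc]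
  rw [e0]
  by_cases h : ∃ x : Fin n, Real.exp (B * Real.log (2 / ε) ^ 3 / ε ^ 4) ≤
      Nat.card {y : Fin n // ¬ r x y ∧ ¬ r y x}
  · obtain ⟨x, hx⟩ := h
    have h1 := hW ε hε hε2 n r hr.1 hr.2.1 hr.2.2.1 x hx
    have h2 := balance_le_half (r := fun a b : Fin w => a = b)
    exact ⟨w, fun a b => a = b, anti_width w, le_max_left _ _, by linarith⟩
  · push Not at h
    rw [mul_div_assoc, ← hX] at h
    have hK : ∀ x : Fin n, Nat.card {y : Fin n // ¬ r x y ∧ ¬ r y x} ≤ ⌊Real.exp (B * X)⌋₊ :=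
      fun x => Nat.le_floor (h x).le
    obtain ⟨j, hj, hl⟩ := numeric hB hε hε2 hX (Nat.floor_le (Real.exp_pos (B * X)).le)
      (m := 2 * ⌊Real.exp (B * X)⌋₊ + 2) rfl
    obtain ⟨n', r', h1, h2, h3⟩ := thin_case (j := j) hr hK rfl rfl
    refine ⟨n', r', h1, ?_, by linarith⟩
    apply le_max_of_le_right
    refine le_trans ?_ (hl _ rfl)
    exact_mod_cast h2

/-- the minimal balance constant of the posets of width `w` -/
noncomputable def delta (w : ℕ) : ℝ :=
  sInf {d : ℝ | ∃ (n : ℕ) (r : Fin n → Fin n → Prop), IsPosetOfWidth r w ∧ d = balance r}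

/-- the minimal balance constant of the posets of width `w` with at most `N` elements -/
noncomputable def deltaN (N w : ℕ) : ℝ :=
  sInf {d : ℝ | ∃ (n : ℕ) (r : Fin n → Fin n → Prop), n ≤ N ∧ IsPosetOfWidth r w ∧
    d = balance r}

lemma delta_le_deltaN {N w : ℕ} (hN : w ≤ N) : delta w ≤ deltaN N w := by
  apply csInf_le_csInf
  · refine ⟨0, ?_⟩
    rintro d ⟨n, r, -, rfl⟩
    exact balance_nonneg
  · exact ⟨_, w, fun a b => a = b, hN, anti_width w, rfl⟩
  · rintro d ⟨n, r, -, h1, h2⟩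
    exact ⟨n, r, h1, h2⟩

lemma deltaN_le {C ε : ℝ} (h : ∀ (w n : ℕ) (r : Fin n → Fin n → Prop), IsPosetOfWidth r w →
    ∃ (n' : ℕ) (r' : Fin n' → Fin n' → Prop), IsPosetOfWidth r' w ∧
      (n' : ℝ) ≤ max (w : ℝ) C ∧ balance r' ≤ balance r + ε) {N w : ℕ} (hw : w ≤ N)
    (hN : C ≤ N) : deltaN N w ≤ delta w + ε := by
  rw [← sub_le_iff_le_add]
  apply le_csInf
  · exact ⟨_, w, fun a b => a = b, anti_width w, rfl⟩
  · rintro d ⟨n, r, h1, rfl⟩
    obtain ⟨n', r', h2, h3, h4⟩ := h w n r h1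
    rw [sub_le_iff_le_add]
    refine le_trans ?_ h4
    apply csInf_le
    · refine ⟨0, ?_⟩
      rintro d ⟨n, r, -, -, rfl⟩
      exact balance_nonneg
    · refine ⟨n', r', ?_, h2, rfl⟩
      have h5 : max (w : ℝ) C ≤ N := max_le (by exact_mod_cast hw) hN
      exact_mod_cast h3.trans h5

end Pool.Agent.R38.FA
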