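import Pool.Agent.R38.FA.Count

/-!
# The contraction lemma: the future of a linear extension depends little on the past
-/

set_option autoImplicit false

open Finset
open scoped Classical

namespace Pool.Agent.R38.FA

variable {r : ℕ → ℕ → Prop}

/-- the probability that `x` comes before `y` (or that `y` is not in `A`) -/
noncomputable def h (r : ℕ → ℕ → Prop) (x y k : ℕ) (A : Finset ℕ) : ℝ :=
  (F1 r x y k A : ℝ) / (F r k A : ℝ)

/-- the oscillation on the upper sets with `k` elements is at most `d` -/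
def Osc (r : ℕ → ℕ → Prop) (N x y k : ℕ) (d : ℝ) : Prop :=
  ∀ A ∈ UU r N k, ∀ B ∈ UU r N k, h r x y k A - h r x y k B ≤ d

lemma F_pos' {m N : ℕ} (hr : BO m N r) {k : ℕ} {A : Finset ℕ} (hA : A ∈ UU r N k) :
    (0 : ℝ) < F r k A := by
  rw [mem_UU] at hA
  exact_mod_cast F_pos hr k A hA.1.1 hA.2

lemma h_nonneg (x y k : ℕ) (A : Finset ℕ) : 0 ≤ h r x y k A := by
  unfold h; positivity

lemma h_le_one {m N : ℕ} (hr : BO m N r) (x y : ℕ) {k : ℕ} {A : Finset ℕ} (hA : A ∈ UU r N k) :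
    h r x y k A ≤ 1 := by
  unfold h
  rw [div_le_one (F_pos' hr hA)]
  exact_mod_cast F1_le x y k A

lemma osc_one {m N : ℕ} (hr : BO m N r) (x y k : ℕ) : Osc r N x y k 1 := by
  intro A hA B _
  have h1 := h_le_one hr x y hA
  have h2 := h_nonneg (r := r) x y k B
  linarith

lemma Ico_UU {m N : ℕ} (hr : BO m N r) {a : ℕ} (_ha : a ≤ N) : Ico a N ∈ UU r N (N - a) := by
  rw [mem_UU]
  refine ⟨⟨fun i hi => ?_, fun p hp q hq hpq => ?_⟩, by simp⟩
  · rw [mem_Ico] at hi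
    rw [mem_range]; exact hi.2
  · rw [mem_Ico] at hp ⊢
    have := hr.le p q hp.2 hq hpq
    omega

lemma UU_nonempty {m N : ℕ} (hr : BO m N r) {k : ℕ} (hk : k ≤ N) : (UU r N k).Nonempty := by
  refine ⟨Ico (N - k) N, ?_⟩
  have := Ico_UU hr (a := N - k) (by omega)
  rwa [show N - (N - k) = k by omega] at this

/-- a weighted average -/
lemma avg {m N : ℕ} (hm : 1 ≤ m) (hr : BO m N r) {x y : ℕ} (hy : y < N) (k : ℕ)
    (hk : N + m ≤ y + k) (s : ℕ) (A : Finset ℕ) (hA : A ∈ UU r N (k + s)) (M μ : ℝ)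
    (hM : ∀ B ∈ UU r N k, h r x y k B ≤ M) (hμ : ∀ B ∈ UU r N k, μ ≤ h r x y k B) :
    μ ≤ h r x y (k + s) A ∧ h r x y (k + s) A ≤ M := by
  have hF := F_pos' hr hA
  have e1 : (F r (k + s) A : ℝ) = ∑ B ∈ UU r N k, (G r s A B : ℝ) * F r k B := by
    rw [F_UU k s A hA]; push_cast; rfl
  have e2 : (F1 r x y (k + s) A : ℝ) = ∑ B ∈ UU r N k, (G r s A B : ℝ) * F1 r x y k B := by
    rw [F1_UU hm hr hy k hk s A hA]; push_cast; rfl
  have key : ∀ B ∈ UU r N k, μ * F r k B ≤ F1 r x y k B ∧ (F1 r x y k B : ℝ) ≤ M * F r k B := by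
    intro B hB
    have h1 := hM B hB
    have h2 := hμ B hB
    unfold h at h1 h2
    rw [div_le_iff₀ (F_pos' hr hB)] at h1
    rw [le_div_iff₀ (F_pos' hr hB)] at h2
    exact ⟨h2, h1⟩
  unfold h
  constructor
  · rw [le_div_iff₀ hF, e1, e2, mul_sum]
    apply sum_le_sum
    intro B hB
    have := (key B hB).1
    have hG : (0 : ℝ) ≤ G r s A B := Nat.cast_nonneg _
    nlinarith
  · rw [div_le_iff₀ hF, e1, e2, mul_sum]
    apply sum_le_sum
    intro B hB
    have := (key B hB).2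
    have hG : (0 : ℝ) ≤ G r s A B := Nat.cast_nonneg _
    nlinarith

/-- two sets of possibly different sizes -/
lemma avg2 {m N : ℕ} (hm : 1 ≤ m) (hr : BO m N r) {x y : ℕ} (hy : y < N) (k : ℕ) (hkN : k ≤ N)
    (hk : N + m ≤ y + k) {d : ℝ} (hd : Osc r N x y k d) (s s' : ℕ) (A A' : Finset ℕ)
    (hA : A ∈ UU r N (k + s)) (hA' : A' ∈ UU r N (k + s')) :
    h r x y (k + s) A - h r x y (k + s') A' ≤ d := by
  obtain ⟨B1, hB1, h1⟩ := exists_max_image (UU r N k) (h r x y k) (UU_nonempty hr hkN)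
  obtain ⟨B2, hB2, h2⟩ := exists_min_image (UU r N k) (h r x y k) (UU_nonempty hr hkN)
  have h3 := (avg hm hr hy k hk s A hA _ _ h1 h2).2
  have h4 := (avg hm hr hy k hk s' A' hA' _ _ h1 h2).1
  have h5 := hd B1 hB1 B2 hB2
  linarith

lemma contract_aux {S T V W M β : ℝ} (hS : 0 < S) (hβ : 1 ≤ β) (hV0 : 0 ≤ V)
    (hV : V ≤ (β - 1) * S) (hT : T ≤ M * S) (hW : W ≤ M * V) :
    (T + W) / (S + V) ≤ (1 / β) * (T / S) + (1 - 1 / β) * M := by
  have hβ0 : 0 < β := by linarith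
  have hSV : 0 < S + V := by linarith
  rw [div_le_iff₀ hSV]
  have e : (1 / β) * (T / S) + (1 - 1 / β) * M = (T + (β - 1) * M * S) / (β * S) := by
    field_simp
  rw [e, div_mul_eq_mul_div, le_div_iff₀ (by positivity)]
  have h1 : 0 ≤ (M * S - T) * ((β - 1) * S - V) :=
    mul_nonneg (by linarith) (by linarith)
  have h2 : 0 ≤ (M * V - W) * (β * S) := mul_nonneg (by linarith) (by positivity)
  nlinarith

/-- the contraction -/
lemma contract {m N : ℕ} (hm : 1 ≤ m) (hr : BO m N r) {x y : ℕ} (hy : y < N) (k : ℕ)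
    (hk : N + m ≤ y + k) {d : ℝ} (hd : Osc r N x y k d) (hkN : k + 2 * m ≤ N) :
    Osc r N x y (k + 2 * m) ((1 - 1 / (m : ℝ) ^ (2 * m)) * d) := by
  obtain ⟨B1, hB1, h1⟩ := exists_max_image (UU r N k) (h r x y k) (UU_nonempty hr (by omega))
  obtain ⟨B2, hB2, h2⟩ := exists_min_image (UU r N k) (h r x y k) (UU_nonempty hr (by omega))
  obtain ⟨M, hMe⟩ : ∃ M, M = h r x y k B1 := ⟨_, rfl⟩
  obtain ⟨μ, hμe⟩ : ∃ μ, μ = h r x y k B2 := ⟨_, rfl⟩
  rw [← hMe] at h1
  rw [← hμe] at h2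
  have hd' : M - μ ≤ d := by rw [hMe, hμe]; exact hd B1 hB1 B2 hB2
  obtain ⟨β, hβe⟩ : ∃ β : ℝ, β = (m : ℝ) ^ (2 * m) := ⟨_, rfl⟩
  have hβ : 1 ≤ β := by
    rw [hβe]; exact one_le_pow₀ (by exact_mod_cast hm)
  have key : ∀ B ∈ UU r N k, μ * F r k B ≤ F1 r x y k B ∧ (F1 r x y k B : ℝ) ≤ M * F r k B := by
    intro B hB
    have h3 := h1 B hB
    have h4 := h2 B hB
    unfold h at h3 h4
    rw [div_le_iff₀ (F_pos' hr hB)] at h3
    rw [le_div_iff₀ (F_pos' hr hB)] at h4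
    exact ⟨h4, h3⟩
  obtain ⟨S, hSe⟩ : ∃ S : ℝ, S = ∑ B ∈ UU r N k, (F r k B : ℝ) := ⟨_, rfl⟩
  obtain ⟨T, hTe⟩ : ∃ T : ℝ, T = ∑ B ∈ UU r N k, (F1 r x y k B : ℝ) := ⟨_, rfl⟩
  have hS : 0 < S := by
    rw [hSe]
    exact sum_pos (fun B hB => F_pos' hr hB) (UU_nonempty hr (by omega))
  have hTM : T ≤ M * S := by
    rw [hTe, hSe, mul_sum]
    exact sum_le_sum fun B hB => (key B hB).2
  have hTμ : μ * S ≤ T := by
    rw [hTe, hSe, mul_sum]
    exact sum_le_sum fun B hB => (key B hB).1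
  have bnd : ∀ A ∈ UU r N (k + 2 * m),
      h r x y (k + 2 * m) A ≤ (1 / β) * (T / S) + (1 - 1 / β) * M ∧
      (1 / β) * (T / S) + (1 - 1 / β) * μ ≤ h r x y (k + 2 * m) A := by
    intro A hA
    have hAU := mem_UU.mp hA
    have hG1 : ∀ B ∈ UU r N k, (1 : ℝ) ≤ G r (2 * m) A B := by
      intro B hB
      have hBU := mem_UU.mp hB
      exact_mod_cast G_ge hr (2 * m) A B hAU.1 hBU.1
        (hAU.1.sub hm hr hBU.1 (by omega)) (by omega)
    have hG2 : ∀ B : Finset ℕ, (G r (2 * m) A B : ℝ) ≤ β := by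
      intro B
      rw [hβe]
      exact_mod_cast G_le hm hr (2 * m) A B hAU.1.1
    obtain ⟨V, hVe⟩ : ∃ V : ℝ, V = ∑ B ∈ UU r N k, ((G r (2 * m) A B : ℝ) - 1) * F r k B :=
      ⟨_, rfl⟩
    obtain ⟨W, hWe⟩ : ∃ W : ℝ, W = ∑ B ∈ UU r N k, ((G r (2 * m) A B : ℝ) - 1) * F1 r x y k B :=
      ⟨_, rfl⟩
    have e1 : (F r (k + 2 * m) A : ℝ) = S + V := by
      rw [F_UU k (2 * m) A hA, hSe, hVe, ← sum_add_distrib]
      push_cast
      refine sum_congr rfl fun B _ => ?_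
      ring
    have e2 : (F1 r x y (k + 2 * m) A : ℝ) = T + W := by
      rw [F1_UU hm hr hy k hk (2 * m) A hA, hTe, hWe, ← sum_add_distrib]
      push_cast
      refine sum_congr rfl fun B _ => ?_
      ring
    have hV0 : 0 ≤ V := by
      rw [hVe]
      exact sum_nonneg fun B hB => mul_nonneg (by linarith [hG1 B hB]) (Nat.cast_nonneg _)
    have hV : V ≤ (β - 1) * S := by
      rw [hVe, hSe, mul_sum]
      exact sum_le_sum fun B hB =>
        mul_le_mul_of_nonneg_right (by linarith [hG2 B]) (Nat.cast_nonneg _)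
    have hWM : W ≤ M * V := by
      rw [hWe, hVe, mul_sum]
      refine sum_le_sum fun B hB => ?_
      have h3 := (key B hB).2
      have h4 := hG1 B hB
      nlinarith
    have hWμ : μ * V ≤ W := by
      rw [hWe, hVe, mul_sum]
      refine sum_le_sum fun B hB => ?_
      have h3 := (key B hB).1
      have h4 := hG1 B hB
      nlinarith
    have hh : h r x y (k + 2 * m) A = (T + W) / (S + V) := by
      unfold h
      rw [e1, e2]
    rw [hh]
    refine ⟨contract_aux hS hβ hV0 hV hTM hWM, ?_⟩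
    have h5 := contract_aux (T := -T) (W := -W) (M := -μ) hS hβ hV0 hV (by linarith) (by linarith)
    have e3 : (-T + -W) / (S + V) = - ((T + W) / (S + V)) := by
      rw [← neg_add, neg_div]
    have e4 : (1 / β) * (-T / S) + (1 - 1 / β) * -μ =
        - ((1 / β) * (T / S) + (1 - 1 / β) * μ) := by
      ring
    rw [e3, e4] at h5
    linarith
  intro A hA B hB
  have h3 := (bnd A hA).1
  have h4 := (bnd B hB).2
  rw [← hβe]
  have h5 : (1 - 1 / β) * (M - μ) ≤ (1 - 1 / β) * d := by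
    apply mul_le_mul_of_nonneg_left hd'
    rw [sub_nonneg, div_le_one (by linarith)]
    exact hβ
  linarith

lemma iterate {m N : ℕ} (hm : 1 ≤ m) (hr : BO m N r) {x y : ℕ} (hy : y < N) (k : ℕ)
    (hk : N + m ≤ y + k) (j : ℕ) (hj : k + 2 * m * j ≤ N) :
    Osc r N x y (k + 2 * m * j) ((1 - 1 / (m : ℝ) ^ (2 * m)) ^ j) := by
  induction j with
  | zero => simpa using osc_one hr x y k
  | succ j ih =>
    have h1 := contract hm hr hy (k + 2 * m * j) (by omega) (ih (by rw [mul_add] at hj; omega))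
      (by rw [mul_add] at hj; omega)
    have e : k + 2 * m * (j + 1) = k + 2 * m * j + 2 * m := by ring
    rw [e, pow_succ, mul_comm ((1 - 1 / (m : ℝ) ^ (2 * m)) ^ j)]
    exact h1

/-- **Forgetting the past.** -/
theorem forget {m N : ℕ} (hm : 1 ≤ m) (hr : BO m N r) {x y a j : ℕ} (hy : y < N)
    (haj : a + 2 * m * j + m ≤ y) :
    |h r x y N (range N) - h r x y (N - a) (Ico a N)| ≤ (1 - 1 / (m : ℝ) ^ (2 * m)) ^ j := by
  obtain ⟨k, hk⟩ : ∃ k, k + y = N + m := ⟨N + m - y, by omega⟩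
  have h1 := iterate (x := x) hm hr hy k (by omega) j (by omega)
  have hN : range N ∈ UU r N N := by
    have := Ico_UU hr (a := 0) (Nat.zero_le N)
    simpa using this
  have ha : Ico a N ∈ UU r N (N - a) := Ico_UU hr (by omega)
  obtain ⟨s, hs⟩ : ∃ s, k + 2 * m * j + s = N := ⟨N - (k + 2 * m * j), by omega⟩
  obtain ⟨s', hs'⟩ : ∃ s', k + 2 * m * j + s' = N - a := ⟨N - a - (k + 2 * m * j), by omega⟩
  have h2 := avg2 hm hr hy _ (by omega) (by omega) h1 s s' (range N) (Ico a N)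
    (by rw [hs]; exact hN) (by rw [hs']; exact ha)
  have h3 := avg2 hm hr hy _ (by omega) (by omega) h1 s' s (Ico a N) (range N)
    (by rw [hs']; exact ha) (by rw [hs]; exact hN)
  rw [hs, hs'] at h2 h3
  rw [abs_le]
  constructor <;> linarith

end Pool.Agent.R38.FA
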